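import Pool.Agent.Mg.F047cd2p.G90de94

namespace Pool.Agent.MP_047cd2_co

open Finset Filter

lemma mod2_hex (w σ : ℤ) (h : (2 : ℤ) ∣ w ^ 2 + w * σ + σ ^ 2) : (2 : ℤ) ∣ σ := by
  have key : ∀ a b : ZMod 2, a ^ 2 + a * b + b ^ 2 = 0 → b = 0 := by decide
  have h1 := (ZMod.intCast_zmod_eq_zero_iff_dvd _ 2).2 h
  push_cast at h1
  exact (ZMod.intCast_zmod_eq_zero_iff_dvd _ 2).1 (key _ _ h1)

lemma mod5_hex (w σ : ℤ) (h : (5 : ℤ) ∣ w ^ 2 + w * σ + σ ^ 2) : (5 : ℤ) ∣ σ := by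
  have key : ∀ a b : ZMod 5, a ^ 2 + a * b + b ^ 2 = 0 → b = 0 := by decide
  have h1 := (ZMod.intCast_zmod_eq_zero_iff_dvd _ 5).2 h
  push_cast at h1
  exact (ZMod.intCast_zmod_eq_zero_iff_dvd _ 5).1 (key _ _ h1)

lemma mod9_hex (w σ : ℤ) (h : (9 : ℤ) ∣ w ^ 2 + w * σ + σ ^ 2) : (3 : ℤ) ∣ σ := by
  have key : ∀ a b : ZMod 9, a ^ 2 + a * b + b ^ 2 = 0 → 3 * b = 0 := by decide
  have h1 := (ZMod.intCast_zmod_eq_zero_iff_dvd _ 9).2 h
  push_cast at h1
  have h2 : ((3 * σ : ℤ) : ZMod 9) = 0 := by push_cast; exact key _ _ h1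
  have h3 := (ZMod.intCast_zmod_eq_zero_iff_dvd _ 9).1 h2
  omega

lemma mod4_sq (w σ : ℤ) (h : (4 : ℤ) ∣ w ^ 2 + σ ^ 2) : (2 : ℤ) ∣ σ := by
  have key : ∀ a b : ZMod 4, a ^ 2 + b ^ 2 = 0 → 2 * b = 0 := by decide
  have h1 := (ZMod.intCast_zmod_eq_zero_iff_dvd _ 4).2 h
  push_cast at h1
  have h2 : ((2 * σ : ℤ) : ZMod 4) = 0 := by push_cast; exact key _ _ h1
  have h3 := (ZMod.intCast_zmod_eq_zero_iff_dvd _ 4).1 h2
  omega

lemma neg_mem_Om {m : ℕ} {x : X} (h : x ∈ Om m) : -x ∈ Om m := by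
  simp only [mem_Om, mem_H, Prod.fst_neg, Prod.snd_neg] at h ⊢
  omega

lemma ev_cubic (K η : ℝ) (hη : 0 < η) :
    ∀ᶠ m : ℕ in atTop, K * ((m : ℝ) + 1) ^ 3 ≤ η * (m : ℝ) ^ 4 := by
  have h2 : ∀ᶠ m : ℕ in atTop, 8 * |K| / η + 1 ≤ (m : ℝ) :=
    tendsto_natCast_atTop_atTop.eventually_ge_atTop _
  filter_upwards [h2] with m hm
  have h0 : 0 ≤ 8 * |K| / η := by positivity
  have h1 : (1 : ℝ) ≤ m := by linarith
  have h3 : 8 * |K| ≤ η * m := by
    have : 8 * |K| / η ≤ m := by linarith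
    rw [div_le_iff₀ hη] at this
    linarith
  have h4 : ((m : ℝ) + 1) ^ 3 ≤ 8 * (m : ℝ) ^ 3 := by
    have : ((m : ℝ) + 1) ^ 3 ≤ (2 * (m : ℝ)) ^ 3 := pow_le_pow_left₀ (by positivity) (by linarith) 3
    linarith [show (2 * (m : ℝ)) ^ 3 = 8 * (m : ℝ) ^ 3 by ring]
  calc K * ((m : ℝ) + 1) ^ 3 ≤ |K| * ((m : ℝ) + 1) ^ 3 :=
        mul_le_mul_of_nonneg_right (le_abs_self K) (by positivity)
    _ ≤ |K| * (8 * (m : ℝ) ^ 3) := mul_le_mul_of_nonneg_left h4 (abs_nonneg K)
    _ = (8 * |K|) * (m : ℝ) ^ 3 := by ring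
    _ ≤ (η * m) * (m : ℝ) ^ 3 := mul_le_mul_of_nonneg_right h3 (by positivity)
    _ = η * (m : ℝ) ^ 4 := by ring

lemma card_Omn (m : ℕ) (hm : 1 ≤ m) : 9 * (m : ℝ) ^ 4 ≤ (Omn m).card := by
  have h1 := card_filter_add_card_filter_not (s := Om m) (fun x => dt x = 0)
  have h2 : (((Om m).filter (fun x => dt x = 0)).card : ℝ) + (Omn m).card = (Om m).card := by
    exact_mod_cast h1
  have h3 := card_deg m
  rw [card_Om] at h2
  rw [card_H] at h3
  have : (1 : ℝ) ≤ m := by exact_mod_cast hm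
  nlinarith [pow_nonneg (show (0 : ℝ) ≤ m by linarith) 2, pow_nonneg (show (0 : ℝ) ≤ m by linarith) 3]

lemma fib2 (A B C : ℝ) (m : ℕ) (S : Finset X) (hS : S ⊆ Omn m)
    (h : ∀ x ∈ S, ∀ y ∈ S, Rel A B C x y → y = x ∨ y = -x) :
    (S.card : ℝ) / 2 ≤ 12 * (Mc A B C m : ℝ) := by
  classical
  have := sum_inv_le_Mc A B C m S hS (fun _ => 2) (by
    intro x hx
    have h1 : S.filter (fun y => Rel A B C x y) ⊆ {x, -x} := by
      intro y hy
      rw [mem_filter] at hy
      simpa using h x hx y hy.1 hy.2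
    have h2 := (card_le_card h1).trans card_le_two
    convert (show ((S.filter (fun y => Rel A B C x y)).card : ℝ) ≤ 2 by exact_mod_cast h2))
  rw [sum_const, nsmul_eq_mul] at this
  linarith

lemma card_good (m : ℕ) (Q R : X → Prop) [DecidablePred Q] [DecidablePred R] :
    ((Omn m).card : ℝ) ≤ ((Omn m).filter (fun x => ¬ Q x ∧ ¬ R x)).card +
      ((Omn m).filter Q).card + ((Om m).filter R).card := by
  have h : Omn m ⊆ ((Omn m).filter (fun x => ¬ Q x ∧ ¬ R x) ∪ (Omn m).filter Q) ∪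
      (Om m).filter R := by
    intro x hx
    have hx' : x ∈ Om m := (mem_filter.1 hx).1
    simp only [mem_union, mem_filter, hx, hx', true_and]
    tauto
  have := (card_le_card h).trans ((card_union_le _ _).trans
    (Nat.add_le_add_right (card_union_le _ _) _))
  exact_mod_cast this

lemma exists_prim (A B C : ℝ) (hA : 0 < A) (n1 n2 n3 : ℤ) (hn : 0 < n1)
    (h1 : A * n2 = B * n1) (h2 : A * n3 = C * n1) :
    ∃ (A0 B0 C0 a b c : ℤ) (μ : ℝ), 0 < μ ∧ A = μ * A0 ∧ B = μ * B0 ∧ C = μ * C0 ∧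
      a * A0 + b * B0 + c * C0 = 1 := by
  set g : ℕ := Int.gcd (Int.gcd n1 n2 : ℤ) n3 with hg
  have d12 : (g : ℤ) ∣ (Int.gcd n1 n2 : ℤ) := Int.gcd_dvd_left _ _
  have d1 : (g : ℤ) ∣ n1 := d12.trans (Int.gcd_dvd_left _ _)
  have d2 : (g : ℤ) ∣ n2 := d12.trans (Int.gcd_dvd_right _ _)
  have d3 : (g : ℤ) ∣ n3 := Int.gcd_dvd_right _ _
  have b1 := Int.gcd_eq_gcd_ab n1 n2
  have b2 := Int.gcd_eq_gcd_ab (Int.gcd n1 n2 : ℤ) n3
  rw [← hg] at b2
  generalize Int.gcdA n1 n2 = s at *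
  generalize Int.gcdB n1 n2 = t at *
  generalize Int.gcdA (Int.gcd n1 n2 : ℤ) n3 = s' at *
  generalize Int.gcdB (Int.gcd n1 n2 : ℤ) n3 = t' at *
  rw [b1] at b2
  obtain ⟨k1, e1⟩ := d1
  obtain ⟨k2, e2⟩ := d2
  obtain ⟨k3, e3⟩ := d3
  have hg0 : (g : ℤ) ≠ 0 := by
    intro h; rw [h] at e1; omega
  have hgpos : (0 : ℤ) < g := lt_of_le_of_ne (Int.natCast_nonneg g) hg0.symm
  have hk1 : 0 < k1 := by
    by_contra hh
    have : (g : ℤ) * k1 ≤ 0 := mul_nonpos_of_nonneg_of_nonpos hgpos.le (by omega)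
    omega
  have hk1' : (0 : ℝ) < k1 := by exact_mod_cast hk1
  have hg' : ((g : ℤ) : ℝ) ≠ 0 := by exact_mod_cast hg0
  refine ⟨k1, k2, k3, s * s', t * s', t', A / k1, by positivity, by field_simp, ?_, ?_, ?_⟩
  · rw [e1, e2] at h1
    push_cast at h1 hg'
    field_simp
    apply mul_left_cancel₀ hg'
    linarith
  · rw [e1, e3] at h2
    push_cast at h2 hg'
    field_simp
    apply mul_left_cancel₀ hg'
    linarith
  · apply mul_left_cancel₀ hg0
    linear_combination (-1) * b2 - s * s' * e1 - t * s' * e2 - t' * e3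

/-- The target lower bound. -/
def Big (A B C : ℝ) : Prop :=
  ∀ η : ℝ, 0 < η → ∀ᶠ m : ℕ in atTop, (9 / 4 - η) * (m : ℝ) ^ 4 ≤ 12 * (Mc A B C m : ℝ)

lemma big_rigid (A B C : ℝ)
    (h : ∀ x y : X, dt x ≠ 0 → Rel A B C x y → y = x ∨ y = -x) : Big A B C := by
  intro η hη
  filter_upwards [eventually_ge_atTop 1] with m hm
  have h1 := fib2 A B C m (Omn m) subset_rfl (fun x hx y _ hr => h x y (mem_filter.1 hx).2 hr)
  have h2 := card_Omn m hm
  have h3 : (0 : ℝ) ≤ (m : ℝ) ^ 4 := by positivity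
  nlinarith

section rational

variable {A B C : ℝ} {A0 B0 C0 a b c : ℤ} {μ : ℝ}

lemma key_int (hD : 0 < 4 * A * C - B ^ 2) (hμ : 0 < μ) (hA : A = μ * A0) (hB : B = μ * B0)
    (hC : C = μ * C0) (hbez : a * A0 + b * B0 + c * C0 = 1) (P : ℕ → Prop)
    (hP : ∀ p : ℕ, p.Prime → Relevant A0 B0 C0 p → P p) :
    ∃ α β : ℕ → ℤ, (∀ p : ℕ, p.Prime → ¬ ((p : ℤ) ∣ α p ∧ (p : ℤ) ∣ β p)) ∧
      ∀ x y : X, dt x ≠ 0 → Rel A B C x y → ¬ Bad P α β x → ¬ Bad P α β y →
        ∃ r σ : ℤ, r ^ 2 + B0 * σ * r + A0 * C0 * σ ^ 2 = 1 ∧ y = act A0 B0 C0 r σ x := by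
  obtain ⟨α, β, h1, h2⟩ := exists_lines A0 B0 C0 a b c hbez
  refine ⟨α, β, h1, ?_⟩
  intro x y hx hr bx hy
  obtain ⟨r1, r2, r3⟩ := rot_rel hD hr hx
  rw [hA, hB] at r1
  rw [hA, hC] at r2
  rw [hB, hC] at r3
  refine integral_of_not_bad A0 B0 C0 a b c hbez P hP α β h2 (dt_eq hD hr) hx ?_ ?_ ?_ bx hy
  · have : ((A0 * (g22 x y - g11 x y) : ℤ) : ℝ) = ((B0 * g21 x y : ℤ) : ℝ) := by
      apply mul_left_cancel₀ hμ.ne'
      push_cast at r1 ⊢
      linarith
    exact_mod_cast this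
  · have : ((A0 * g12 x y + C0 * g21 x y : ℤ) : ℝ) = 0 := by
      apply mul_left_cancel₀ hμ.ne'
      push_cast at r2 ⊢
      linarith
    exact_mod_cast this
  · have : ((B0 * g12 x y + C0 * (g22 x y - g11 x y) : ℤ) : ℝ) = 0 := by
      apply mul_left_cancel₀ hμ.ne'
      push_cast at r3 ⊢
      linarith
    exact_mod_cast this

lemma act_zero {r : ℤ} (h : r ^ 2 = 1) (x : X) :
    act A0 B0 C0 r 0 x = x ∨ act A0 B0 C0 r 0 x = -x := by
  have : r = 1 ∨ r = -1 := by
    rcases sq_eq_sq_iff_eq_or_eq_neg.1 (show r ^ 2 = 1 ^ 2 by simpa using h) with h | h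
    · exact Or.inl h
    · exact Or.inr h
  rcases this with rfl | rfl
  · left; ext <;> simp [act]
  · right; ext <;> simp [act]

lemma big_generic (hD : 0 < 4 * A * C - B ^ 2) (hμ : 0 < μ) (hA : A = μ * A0) (hB : B = μ * B0)
    (hC : C = μ * C0) (hbez : a * A0 + b * B0 + c * C0 = 1) (h4 : 4 < 4 * A0 * C0 - B0 ^ 2) :
    Big A B C := by
  classical
  obtain ⟨α, β, h1, h2⟩ := key_int hD hμ hA hB hC hbez (fun _ => True) (fun _ _ _ => trivial)
  intro η hη
  filter_upwards [eventually_ge_atTop 1, card_bad _ α β h1 (1 / 2) sum_primes_all η hη]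
    with m hm hb
  have h3 := fib2 A B C m ((Omn m).filter (fun x => ¬ Bad (fun _ => True) α β x ∧ ¬ False))
    (filter_subset _ _) (by
      intro x hx y hy hr
      rw [mem_filter] at hx hy
      obtain ⟨r, σ, e, rfl⟩ := h2 x y (mem_filter.1 hx.1).2 hr hx.2.1 hy.2.1
      have hσ : σ = 0 := by
        by_contra hne
        have : 1 ≤ σ ^ 2 := by
          have := sq_pos_of_ne_zero hne
          omega
        nlinarith [sq_nonneg (2 * r + B0 * σ)]
      subst hσ
      exact act_zero (by simpa using e) x)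
  have h5 := card_good m (Bad (fun _ => True) α β) (fun _ => False)
  have h6 := card_Omn m hm
  simp only [filter_false, card_empty, Nat.cast_zero, add_zero] at h5
  have h7 : (0 : ℝ) ≤ η * (m : ℝ) ^ 4 := by positivity
  have h8 := h6.trans (h5.trans (add_le_add_right hb _))
  have h9 := (div_le_div_of_nonneg_right (sub_le_iff_le_add.2 h8) zero_le_two).trans h3
  linarith

lemma big_skew (hD : 0 < 4 * A * C - B ^ 2) (hμ : 0 < μ) (hA : A = μ * A0) (hB : B = μ * B0)
    (hC : C = μ * C0) (hbez : a * A0 + b * B0 + c * C0 = 1) (h0 : 0 < 4 * A0 * C0 - B0 ^ 2)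
    (h4 : 4 * A0 * C0 - B0 ^ 2 ≤ 4) (h2' : 2 ≤ A0 ∨ 2 ≤ C0) :
    Big A B C := by
  classical
  obtain ⟨r0, hr0, hT⟩ : ∃ r0 : ℤ, r0 ^ 2 + B0 * r0 + A0 * C0 = 1 ∧
      (2 * r0 + B0 = 0 ∨ 2 * r0 + B0 = 1) := by
    rcases Int.even_or_odd' B0 with ⟨k, hk | hk⟩
    · refine ⟨-k, ?_, Or.inl (by omega)⟩
      rw [hk] at h0 h4 ⊢
      have e0 : 0 < A0 * C0 - k ^ 2 := by nlinarith
      have e1 : A0 * C0 - k ^ 2 ≤ 1 := by nlinarith
      have e2 : A0 * C0 - k ^ 2 = 1 := by omega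
      linear_combination e2
    · refine ⟨-k, ?_, Or.inr (by omega)⟩
      rw [hk] at h0 h4 ⊢
      have e0 : 0 < A0 * C0 - k ^ 2 - k := by nlinarith
      have e1 : A0 * C0 - k ^ 2 - k < 2 := by nlinarith
      have e2 : A0 * C0 - k ^ 2 - k = 1 := by omega
      linear_combination e2
  obtain ⟨α, β, h1, h2⟩ := key_int hD hμ hA hB hC hbez (fun p => p ≠ 2) (by
    rintro p - ⟨q, r, σ, ⟨q', rfl⟩, hσ, e⟩ rfl
    apply hσ
    rcases hT with hT | hT
    · refine mod4_sq (r - r0 * σ) σ ⟨q' ^ 2, ?_⟩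
      push_cast at e
      linear_combination (-1) * e - σ ^ 2 * hr0 + (σ ^ 2 * r0 - σ * r) * hT
    · refine mod2_hex (r - r0 * σ) σ ⟨2 * q' ^ 2, ?_⟩
      push_cast at e
      linear_combination (-1) * e - σ ^ 2 * hr0 + (σ ^ 2 * r0 - σ * r) * hT)
  intro η hη
  filter_upwards [eventually_ge_atTop 1, card_bad _ α β h1 (1 / 4) sum_primes_odd η hη,
    ev_cubic 21 η hη] with m hm hb hc
  have h3 := fib2 A B C m ((Omn m).filter (fun x => ¬ Bad (fun p => p ≠ 2) α β x ∧
      ¬ (act A0 B0 C0 r0 1 x ∈ Om m))) (filter_subset _ _) (by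
      intro x hx y hy hr
      rw [mem_filter] at hx hy
      obtain ⟨r, σ, e, rfl⟩ := h2 x y (mem_filter.1 hx.1).2 hr hx.2.1 hy.2.1
      have hxO : x ∈ Om m := (mem_filter.1 hx.1).1
      have hyO : act A0 B0 C0 r σ x ∈ Om m := (mem_filter.1 hy.1).1
      have hD3 : 3 ≤ 4 * A0 * C0 - B0 ^ 2 := by
        rcases hT with hT | hT
        · have : B0 = -2 * r0 := by omega
          rw [this] at hr0 ⊢; nlinarith
        · have : B0 = 1 - 2 * r0 := by omega
          rw [this] at hr0 ⊢; nlinarith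
      have hσ : σ = 0 ∨ σ = 1 ∨ σ = -1 := by
        have : σ ^ 2 < 2 := by
          by_contra hh
          nlinarith [sq_nonneg (2 * r + B0 * σ)]
        have h5 : -2 < σ := by nlinarith
        have h6 : σ < 2 := by nlinarith
        omega
      rcases hσ with rfl | rfl | rfl
      · exact act_zero (by simpa using e) x
      · exfalso
        have : (r - r0) * (r + r0 + B0) = 0 := by linear_combination e - hr0
        rcases mul_eq_zero.1 this with h | h
        · have : r = r0 := by omega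
          exact hx.2.2 (this ▸ hyO)
        · have : r = -r0 - B0 := by omega
          subst this
          apply hy.2.2
          have : act A0 B0 C0 r0 1 (act A0 B0 C0 (-r0 - B0) 1 x) = -x := by
            ext <;> simp only [act, Prod.fst_neg, Prod.snd_neg]
            · linear_combination (-x.1.1) * hr0
            · linear_combination (-x.1.2) * hr0
            · linear_combination (-x.2.1) * hr0
            · linear_combination (-x.2.2) * hr0
          rw [this]; exact neg_mem_Om hxO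
      · exfalso
        have : (r + r0) * (r - r0 - B0) = 0 := by linear_combination e - hr0
        rcases mul_eq_zero.1 this with h | h
        · have : r = -r0 := by omega
          subst this
          apply hx.2.2
          have : act A0 B0 C0 r0 1 x = -act A0 B0 C0 (-r0) (-1) x := by
            ext <;> simp only [act, Prod.fst_neg, Prod.snd_neg] <;> ring
          rw [this]; exact neg_mem_Om hyO
        · have : r = r0 + B0 := by omega
          subst this
          apply hy.2.2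
          have : act A0 B0 C0 r0 1 (act A0 B0 C0 (r0 + B0) (-1) x) = x := by
            ext <;> simp only [act]
            · linear_combination (x.1.1) * hr0
            · linear_combination (x.1.2) * hr0
            · linear_combination (x.2.1) * hr0
            · linear_combination (x.2.2) * hr0
          rw [this]; exact hxO)
  have h5 := card_good m (Bad (fun p => p ≠ 2) α β) (fun x => act A0 B0 C0 r0 1 x ∈ Om m)
  have h6 := card_Omn m hm
  have h7 : (((Om m).filter (fun x => act A0 B0 C0 r0 1 x ∈ Om m)).card : ℝ) ≤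
      (H m).card * (3 * ((m : ℝ) / 2 + 2) ^ 2) := by
    rcases h2' with h | h
    · refine le_trans ?_ (card_rot2 m (r0 + B0) A0 (by omega))
      refine Nat.cast_le.2 (card_le_card ?_)
      intro x hx
      rw [mem_filter] at hx ⊢
      refine ⟨hx.1, ?_⟩
      have := (mem_Om.1 hx.2).2
      simpa [act] using this
    · refine le_trans ?_ (card_rot1 m r0 (-C0) (by omega))
      refine Nat.cast_le.2 (card_le_card ?_)
      intro x hx
      rw [mem_filter] at hx ⊢
      refine ⟨hx.1, ?_⟩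
      have := (mem_Om.1 hx.2).1
      simpa [act, sub_eq_add_neg] using this
  rw [card_H] at h7
  have hm0 : (0 : ℝ) ≤ m := Nat.cast_nonneg m
  have h8 : (3 * (m : ℝ) ^ 2 + 3 * m + 1) * (3 * ((m : ℝ) / 2 + 2) ^ 2) ≤
      9 / 4 * (m : ℝ) ^ 4 + 21 * ((m : ℝ) + 1) ^ 3 := by
    nlinarith [pow_nonneg hm0 2, pow_nonneg hm0 3]
  linarith

lemma big_hex (hD : 0 < 4 * A * C - B ^ 2) (hμ : 0 < μ) (hA : A = μ * (1 : ℤ)) (hB : B = μ * B0)
    (hC : C = μ * (1 : ℤ)) (hB0 : B0 = 1 ∨ B0 = -1) : Big A B C := by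
  classical
  have hBB : B0 ^ 2 = 1 := by rcases hB0 with rfl | rfl <;> norm_num
  obtain ⟨α, β, h1, h2⟩ := key_int (a := 1) (b := 0) (c := 0) hD hμ hA hB hC (by norm_num)
    (fun p => p ≠ 2 ∧ p ≠ 3 ∧ p ≠ 5) (by
    rintro p - ⟨q, r, σ, ⟨q', rfl⟩, hσ, e⟩
    have e' : (B0 * r) ^ 2 + (B0 * r) * σ + σ ^ 2 = (p * q') ^ 2 := by
      linear_combination (-1) * e + r ^ 2 * hBB
    refine ⟨?_, ?_, ?_⟩ <;> rintro rfl <;> apply hσ
    · exact mod2_hex (B0 * r) σ ⟨2 * q' ^ 2, by rw [e']; push_cast; ring⟩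
    · exact mod9_hex (B0 * r) σ ⟨q' ^ 2, by rw [e']; push_cast; ring⟩
    · exact mod5_hex (B0 * r) σ ⟨5 * q' ^ 2, by rw [e']; push_cast; ring⟩)
  intro η hη
  filter_upwards [eventually_ge_atTop 1, card_bad _ α β h1 (1 / 12) sum_primes_seven η hη,
    ev_cubic 23 η hη] with m hm hb hc
  set S := (Omn m).filter (fun x => ¬ Bad (fun p => p ≠ 2 ∧ p ≠ 3 ∧ p ≠ 5) α β x ∧ ¬ False)
    with hS
  set R : X → Prop := fun x => (x.1.1 + B0 * x.2.1, x.1.2 + B0 * x.2.2) ∈ H m with hR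
  have h3 := sum_inv_le_Mc A B C m S (filter_subset _ _) (fun x => if R x then 6 else 2) (by
    intro x hx
    have hx' := mem_filter.1 hx
    have key : ∀ y ∈ S.filter (fun y => Rel A B C x y), (y = x ∨ y = -x) ∨
        (R x ∧ (y = act 1 B0 1 0 1 x ∨ y = act 1 B0 1 (-B0) 1 x ∨ y = act 1 B0 1 0 (-1) x ∨
          y = act 1 B0 1 B0 (-1) x)) := by
      intro y hy
      rw [mem_filter, mem_filter] at hy
      obtain ⟨r, σ, e, rfl⟩ := h2 x y (mem_filter.1 hx'.1).2 hy.2 hx'.2.1 hy.1.2.1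
      have hyO : act 1 B0 1 r σ x ∈ Om m := (mem_filter.1 hy.1.1).1
      have hσ : σ = 0 ∨ σ = 1 ∨ σ = -1 := by
        have : σ ^ 2 < 2 := by
          by_contra hh
          nlinarith [sq_nonneg (2 * r + B0 * σ)]
        have h5 : -2 < σ := by nlinarith
        have h6 : σ < 2 := by nlinarith
        omega
      simp only [mem_Om, mem_H, act] at hyO
      simp only [hR, mem_H]
      rcases hσ with rfl | rfl | rfl
      · exact Or.inl (act_zero (by simpa using e) x)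
      · right
        have : r * (r + B0) = 0 := by linear_combination e
        rcases mul_eq_zero.1 this with h | h
        · subst h
          refine ⟨?_, Or.inl rfl⟩
          rcases hB0 with rfl | rfl <;> omega
        · have : r = -B0 := by omega
          subst this
          refine ⟨?_, Or.inr (Or.inl rfl)⟩
          rcases hB0 with rfl | rfl <;> omega
      · right
        have : r * (r - B0) = 0 := by linear_combination e
        rcases mul_eq_zero.1 this with h | h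
        · subst h
          refine ⟨?_, Or.inr (Or.inr (Or.inl rfl))⟩
          rcases hB0 with rfl | rfl <;> omega
        · have : r = B0 := by omega
          subst this
          refine ⟨?_, Or.inr (Or.inr (Or.inr rfl))⟩
          rcases hB0 with rfl | rfl <;> omega
    by_cases hRx : R x
    · rw [if_pos hRx]
      have h1 : S.filter (fun y => Rel A B C x y) ⊆ {x, -x, act 1 B0 1 0 1 x,
          act 1 B0 1 (-B0) 1 x, act 1 B0 1 0 (-1) x, act 1 B0 1 B0 (-1) x} := by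
        intro y hy
        have := key y hy
        simp only [mem_insert, mem_singleton]
        tauto
      have h2 := (card_le_card h1).trans card_le_six
      convert (show ((S.filter (fun y => Rel A B C x y)).card : ℝ) ≤ 6 by exact_mod_cast h2)
    · rw [if_neg hRx]
      have h1 : S.filter (fun y => Rel A B C x y) ⊆ {x, -x} := by
        intro y hy
        have := key y hy
        simp only [mem_insert, mem_singleton]
        tauto
      have h2 := (card_le_card h1).trans card_le_two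
      convert (show ((S.filter (fun y => Rel A B C x y)).card : ℝ) ≤ 2 by exact_mod_cast h2))
  have h4 : ∑ x ∈ S, (1 / if R x then (6 : ℝ) else 2) =
      (S.card : ℝ) / 2 - ((S.filter R).card : ℝ) / 3 := by
    have : ∀ x ∈ S, (1 / if R x then (6 : ℝ) else 2) = 1 / 2 - (if R x then 1 else 0) / 3 := by
      intro x _
      split_ifs <;> norm_num
    rw [sum_congr rfl this, sum_sub_distrib, ← sum_div, ← sum_div, sum_boole]
    simp
  have h5 := card_good m (Bad (fun p => p ≠ 2 ∧ p ≠ 3 ∧ p ≠ 5) α β) (fun _ => False)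
  simp only [filter_false, card_empty, Nat.cast_zero, add_zero] at h5
  have h6 := card_Omn m hm
  have h7 : ((S.filter R).card : ℝ) ≤ ((Om m).filter R).card := by
    refine Nat.cast_le.2 (card_le_card (filter_subset_filter _ ?_))
    exact (filter_subset _ _).trans (filter_subset _ _)
  have h8 : (((Om m).filter R).card : ℝ) ≤ 21 / 4 * (m : ℝ) ^ 4 + 45 / 2 * (m : ℝ) ^ 3 +
      135 / 4 * (m : ℝ) ^ 2 + 45 / 2 * m + 6 := by convert card_VB m B0 hB0
  have hm0 : (0 : ℝ) ≤ m := Nat.cast_nonneg m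
  have h9 : 45 / 2 * (m : ℝ) ^ 3 + 135 / 4 * (m : ℝ) ^ 2 + 45 / 2 * m + 6 ≤
      23 * ((m : ℝ) + 1) ^ 3 := by
    nlinarith [pow_nonneg hm0 2, pow_nonneg hm0 3]
  have h10 : (0 : ℝ) ≤ η * (m : ℝ) ^ 4 := by positivity
  have h11 : (0 : ℝ) ≤ (m : ℝ) ^ 4 := by positivity
  rw [h4] at h3
  rw [← hS] at h5
  linarith

end rational

theorem compare (A B C : ℝ) (hA : 0 < A) (hD : 0 < 4 * A * C - B ^ 2) (η : ℝ) (hη : 0 < η) :
    ∀ᶠ m : ℕ in atTop, (Mc 1 0 1 m : ℝ) ≤ Mc A B C m + η * (m : ℝ) ^ 4 := by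
  have fin : Big A B C → ∀ᶠ m : ℕ in atTop, (Mc 1 0 1 m : ℝ) ≤ Mc A B C m + η * (m : ℝ) ^ 4 := by
    intro h
    filter_upwards [h η hη, ev_cubic 7 (η / 2) (by positivity)] with m h1 h2
    have h3 := Mc_sq_le m
    have h10 : (0 : ℝ) ≤ η * (m : ℝ) ^ 4 := by positivity
    linarith
  by_cases hr : ∀ x y : X, dt x ≠ 0 → Rel A B C x y → y = x ∨ y = -x
  · exact fin (big_rigid A B C hr)
  push Not at hr
  obtain ⟨x, y, hx, hxy, hn⟩ := hr
  obtain ⟨r1, r2, r3⟩ := rot_rel hD hxy hx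
  have hn1 : g21 x y ≠ 0 := by
    intro h0
    rw [h0] at r1 r2
    have e1 : g22 x y - g11 x y = 0 := by
      have : ((g22 x y - g11 x y : ℤ) : ℝ) = 0 := by
        apply mul_left_cancel₀ hA.ne'
        simpa using r1
      exact_mod_cast this
    have e2 : g12 x y = 0 := by
      have : ((g12 x y : ℤ) : ℝ) = 0 := by
        apply mul_left_cancel₀ hA.ne'
        simpa using r2
      exact_mod_cast this
    rcases scalar_case (dt_eq hD hxy) hx h0 e1 e2 with h | h
    · exact hn.1 h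
    · exact hn.2 h
  obtain ⟨A0, B0, C0, a, b, c, μ, hμ, eA, eB, eC, hbez⟩ :
      ∃ (A0 B0 C0 a b c : ℤ) (μ : ℝ), 0 < μ ∧ A = μ * A0 ∧ B = μ * B0 ∧ C = μ * C0 ∧
      a * A0 + b * B0 + c * C0 = 1 := by
    rcases lt_or_gt_of_ne hn1 with h | h
    · refine exists_prim A B C hA (-g21 x y) (-(g22 x y - g11 x y)) (g12 x y) (by omega) ?_ ?_
      · push_cast at r1 ⊢; linarith
      · push_cast; linarith
    · refine exists_prim A B C hA (g21 x y) (g22 x y - g11 x y) (-g12 x y) h r1 ?_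
      push_cast; linarith
  have hA0 : 0 < A0 := by
    have : (0 : ℝ) < A0 := by
      rw [eA] at hA
      exact (mul_pos_iff_of_pos_left hμ).1 hA
    exact_mod_cast this
  have hD0 : 0 < 4 * A0 * C0 - B0 ^ 2 := by
    have : (0 : ℝ) < 4 * A0 * C0 - B0 ^ 2 := by
      have e : 4 * A * C - B ^ 2 = μ ^ 2 * (4 * A0 * C0 - B0 ^ 2) := by rw [eA, eB, eC]; ring
      rw [e] at hD
      exact (mul_pos_iff_of_pos_left (by positivity)).1 hD
    exact_mod_cast this
  have hC0 : 0 < C0 := by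
    by_contra hh
    nlinarith [sq_nonneg B0]
  by_cases h4 : 4 < 4 * A0 * C0 - B0 ^ 2
  · exact fin (big_generic hD hμ eA eB eC hbez h4)
  by_cases h2 : 2 ≤ A0 ∨ 2 ≤ C0
  · exact fin (big_skew hD hμ eA eB eC hbez hD0 (by omega) h2)
  have e1 : A0 = 1 := by omega
  have e2 : C0 = 1 := by omega
  subst e1 e2
  have hB0 : B0 = 0 ∨ B0 = 1 ∨ B0 = -1 := by
    have h5 : -2 < B0 := by nlinarith
    have h6 : B0 < 2 := by nlinarith
    omega
  rcases hB0 with rfl | hB0
  · refine Eventually.of_forall fun m => ?_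
    have : Mc A B C m = Mc 1 0 1 m := by
      rw [eA, eB, eC]
      simpa using Mc_scale μ hμ.ne' m
    rw [this]
    have h10 : (0 : ℝ) ≤ η * (m : ℝ) ^ 4 := by positivity
    linarith
  · exact fin (big_hex hD hμ eA eB eC hB0)

end Pool.Agent.MP_047cd2_co
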