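import Pool.Agent.MP_047cd2_co.Defs
import Pool.Agent.Mg.F047cd2p.G80b59c

section

namespace Pool.Agent.MP_047cd2_co

open Finset Filter

/-- The multiset of squared side lengths of a triangle. -/
noncomputable def sides (p q r : Plane) : Multiset ℝ := {dist q p ^ 2, dist r p ^ 2, dist q r ^ 2}

lemma ncol_iff (p q r : Plane) : ¬ Collinear ℝ ({p, q, r} : Set Plane) ↔
    ∀ s t : ℝ, s • (q - p) + t • (r - p) = 0 → s = 0 ∧ t = 0 := by
  rw [collinear_iff_of_mem (p₀ := p) (by simp)]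
  constructor
  · intro h s t hst
    by_contra hne
    apply h
    by_cases hs : s = 0
    · have ht : t ≠ 0 := fun ht => hne ⟨hs, ht⟩
      rw [hs, zero_smul, zero_add] at hst
      have hr : r = p := sub_eq_zero.1 ((smul_eq_zero.1 hst).resolve_left ht)
      refine ⟨q - p, ?_⟩
      intro x hx
      simp only [Set.mem_insert_iff, Set.mem_singleton_iff] at hx
      rcases hx with rfl | rfl | rfl
      · exact ⟨0, by simp⟩
      · exact ⟨1, by simp⟩
      · exact ⟨0, by simp [hr]⟩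
    · refine ⟨r - p, ?_⟩
      intro x hx
      simp only [Set.mem_insert_iff, Set.mem_singleton_iff] at hx
      rcases hx with rfl | rfl | rfl
      · exact ⟨0, by simp⟩
      · refine ⟨-(t / s), ?_⟩
        have : x - p = -(t / s) • (r - p) := by
          apply smul_right_injective Plane hs
          simp only [smul_smul]
          rw [show s * -(t / s) = -t by field_simp, neg_smul]
          exact eq_neg_of_add_eq_zero_left hst
        rw [vadd_eq_add, ← this]; simp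
      · exact ⟨1, by simp⟩
  · rintro h ⟨w, hw⟩
    obtain ⟨t1, h1⟩ := hw q (by simp)
    obtain ⟨t2, h2⟩ := hw r (by simp)
    rw [vadd_eq_add] at h1 h2
    have e1 : q - p = t1 • w := by rw [h1]; simp
    have e2 : r - p = t2 • w := by rw [h2]; simp
    have := h t2 (-t1) (by rw [e1, e2, smul_smul, smul_smul, ← add_smul]; simp [mul_comm])
    have ht1 : t1 = 0 := by linarith [this.2]
    have := h 1 0 (by rw [e1, ht1]; simp)
    exact one_ne_zero this.1

lemma ne_of_ncol {p q r : Plane} (h : ¬ Collinear ℝ ({p, q, r} : Set Plane)) :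
    p ≠ q ∧ p ≠ r ∧ q ≠ r := by
  rw [ncol_iff] at h
  refine ⟨?_, ?_, ?_⟩ <;> rintro rfl
  · exact one_ne_zero (h 1 0 (by simp)).1
  · exact one_ne_zero (h 0 1 (by simp)).2
  · exact one_ne_zero (h 1 (-1) (by simp)).1

lemma sides_perm {p q r p' q' r' : Plane} (h : ({p, q, r} : Set Plane) = {p', q', r'})
    (hn : ¬ Collinear ℝ ({p', q', r'} : Set Plane)) : sides p q r = sides p' q' r' := by
  obtain ⟨n1, n2, n3⟩ := ne_of_ncol hn
  have a1 : p' ∈ ({p, q, r} : Set Plane) := by rw [h]; simp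
  have a2 : q' ∈ ({p, q, r} : Set Plane) := by rw [h]; simp
  have a3 : r' ∈ ({p, q, r} : Set Plane) := by rw [h]; simp
  simp only [Set.mem_insert_iff, Set.mem_singleton_iff] at a1 a2 a3
  clear h hn
  rcases a1 with a1 | a1 | a1 <;> rcases a2 with a2 | a2 | a2 <;> rcases a3 with a3 | a3 | a3 <;>
    first
      | exact absurd (a1.trans a2.symm) n1
      | exact absurd (a1.trans a3.symm) n2
      | exact absurd (a2.trans a3.symm) n3
      | (rw [a1, a2, a3]; done)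
      | (rw [a1, a2, a3]
         simp only [sides, dist_comm p q, dist_comm p r, dist_comm r q]
         first
          | done
          | exact perm_213 _ _ _
          | exact perm_132 _ _ _
          | exact perm_312 _ _ _
          | exact perm_231 _ _ _
          | exact perm_321 _ _ _)

lemma sss {p q r p' q' r' : Plane} (hn : ¬ Collinear ℝ ({p, q, r} : Set Plane))
    (h1 : dist q p ^ 2 = dist q' p' ^ 2) (h2 : dist r p ^ 2 = dist r' p' ^ 2)
    (h3 : dist q r ^ 2 = dist q' r' ^ 2) :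
    Cong {p, q, r} {p', q', r'} := by
  rw [ncol_iff] at hn
  have hli : LinearIndependent ℝ ![q - p, r - p] := LinearIndependent.pair_iff.2 hn
  let bs := basisOfLinearIndependentOfCardEqFinrank hli (by simp)
  have b0 : bs 0 = q - p := by simp [bs]
  have b1 : bs 1 = r - p := by simp [bs]
  let M : Plane →ₗ[ℝ] Plane := bs.constr ℝ ![q' - p', r' - p']
  have m0 : M (q - p) = q' - p' := by rw [← b0]; simp [M]
  have m1 : M (r - p) = r' - p' := by rw [← b1]; simp [M]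
  rw [dist_eq_norm, dist_eq_norm] at h1 h2 h3
  have e3 : q - r = (q - p) - (r - p) := by simp
  have e3' : q' - r' = (q' - p') - (r' - p') := by simp
  rw [e3, e3', norm_sub_sq_real (q - p), norm_sub_sq_real (q' - p')] at h3
  have hin : inner ℝ (q - p) (r - p) = inner ℝ (q' - p') (r' - p') := by linarith
  have hM : ∀ x, ‖M x‖ = ‖x‖ := by
    intro x
    have hx : x = bs.repr x 0 • (q - p) + bs.repr x 1 • (r - p) := by
      conv_lhs => rw [← bs.sum_repr x]
      rw [Fin.sum_univ_two, b0, b1]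
    generalize bs.repr x 0 = s at hx
    generalize bs.repr x 1 = t at hx
    have : ‖M x‖ ^ 2 = ‖x‖ ^ 2 := by
      rw [hx, map_add, map_smul, map_smul, m0, m1, norm_add_sq_real, norm_add_sq_real]
      simp only [norm_smul, mul_pow, inner_smul_left, inner_smul_right, h1, h2, hin]
    exact (pow_left_inj₀ (norm_nonneg _) (norm_nonneg _) two_ne_zero).1 this
  let L : Plane →ₗᵢ[ℝ] Plane := ⟨M, hM⟩
  let L' : Plane ≃ₗᵢ[ℝ] Plane := L.toLinearIsometryEquiv rfl
  have hL : ∀ x, L' x = M x := fun x => rfl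
  refine ⟨(IsometryEquiv.subRight p).trans (L'.toIsometryEquiv.trans (IsometryEquiv.addRight p')), ?_⟩
  simp only [Set.image_insert_eq, Set.image_singleton]
  simp [hL, m0, m1]

lemma cong_iff {p q r p' q' r' : Plane} (hn : ¬ Collinear ℝ ({p, q, r} : Set Plane))
    (hn' : ¬ Collinear ℝ ({p', q', r'} : Set Plane)) :
    Cong {p, q, r} {p', q', r'} ↔ sides p' q' r' = sides p q r := by
  constructor
  · rintro ⟨φ, hφ⟩
    simp only [Set.image_insert_eq, Set.image_singleton] at hφ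
    rw [← sides_perm hφ hn']
    simp only [sides, φ.dist_eq]
  · intro h
    rcases triple_eq h.symm with h | h | h | h | h | h <;> obtain ⟨h1, h2, h3⟩ := h
    · exact sss hn h1 h2 h3
    · have := sss (p' := q') (q' := p') (r' := r') hn (by rw [h1, dist_comm])
        (by rw [h2, dist_comm]) (by rw [h3, dist_comm])
      rwa [Set.insert_comm q' p'] at this
    · have := sss (p' := p') (q' := r') (r' := q') hn h1 h2 (by rw [h3, dist_comm])
      rwa [Set.pair_comm r' q'] at this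
    · have := sss (p' := r') (q' := p') (r' := q') hn (by rw [h1, dist_comm]) h2
        (by rw [h3, dist_comm])
      rwa [Set.insert_comm r' p', Set.pair_comm r' q'] at this
    · have := sss (p' := q') (q' := r') (r' := p') hn (by rw [h1, dist_comm])
        (by rw [h2, dist_comm]) h3
      rwa [Set.pair_comm r' p', Set.insert_comm q' p'] at this
    · have := sss (p' := r') (q' := q') (r' := p') hn h1 (by rw [h2, dist_comm]) h3
      rwa [Set.pair_comm q' p', Set.insert_comm r' p', Set.pair_comm r' q'] at this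

lemma numTri_eq (P : Set Plane) : numTri P = Set.ncard {m : Multiset ℝ | ∃ p ∈ P, ∃ q ∈ P, ∃ r ∈ P,
    ¬ Collinear ℝ ({p, q, r} : Set Plane) ∧ m = sides p q r} := by
  let Φ : Multiset ℝ → Set (Set Plane) := fun m => {t | ∃ p ∈ P, ∃ q ∈ P, ∃ r ∈ P,
    t = {p, q, r} ∧ ¬ Collinear ℝ ({p, q, r} : Set Plane) ∧ sides p q r = m}
  have key : ∀ p q r : Plane, ¬ Collinear ℝ ({p, q, r} : Set Plane) →
      {t | t ∈ triangles P ∧ Cong {p, q, r} t} = Φ (sides p q r) := by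
    intro p q r hn
    ext t
    constructor
    · rintro ⟨⟨p', hp', q', hq', r', hr', rfl, hn'⟩, hc⟩
      exact ⟨p', hp', q', hq', r', hr', rfl, hn', (cong_iff hn hn').1 hc⟩
    · rintro ⟨p', hp', q', hq', r', hr', rfl, hn', hc⟩
      exact ⟨⟨p', hp', q', hq', r', hr', rfl, hn'⟩, (cong_iff hn hn').2 hc⟩
  rw [numTri, ← Set.InjOn.ncard_image (f := Φ)]
  · congr 1
    ext K
    constructor
    · rintro ⟨s, ⟨p, hp, q, hq, r, hr, rfl, hn⟩, rfl⟩
      exact ⟨sides p q r, ⟨p, hp, q, hq, r, hr, hn, rfl⟩, (key p q r hn).symm⟩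
    · rintro ⟨m, ⟨p, hp, q, hq, r, hr, hn, rfl⟩, rfl⟩
      exact ⟨{p, q, r}, ⟨p, hp, q, hq, r, hr, rfl, hn⟩, (key p q r hn).symm⟩
  · rintro m1 ⟨p, hp, q, hq, r, hr, hn, rfl⟩ m2 - h
    have : ({p, q, r} : Set Plane) ∈ Φ (sides p q r) := ⟨p, hp, q, hq, r, hr, rfl, hn, rfl⟩
    rw [h] at this
    obtain ⟨p', -, q', -, r', -, e, hn', rfl⟩ := this
    exact sides_perm e hn'

lemma dist_sq_pt (a b : Plane) (i j i' j' : ℤ) :
    dist ((i : ℝ) • a + (j : ℝ) • b) ((i' : ℝ) • a + (j' : ℝ) • b) ^ 2 =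
      qf (‖a‖ ^ 2) (2 * inner ℝ a b) (‖b‖ ^ 2) (i - i') (j - j') := by
  have : (i : ℝ) • a + (j : ℝ) • b - ((i' : ℝ) • a + (j' : ℝ) • b) =
      ((i : ℝ) - i') • a + ((j : ℝ) - j') • b := by
    rw [sub_smul, sub_smul]; abel
  rw [dist_eq_norm, this, norm_add_sq_real]
  simp only [norm_smul, mul_pow, inner_smul_left, inner_smul_right, qf, Real.norm_eq_abs, sq_abs,
    conj_trivial]
  push_cast
  ring

lemma ncol_pt {a b : Plane} (hab : LinearIndependent ℝ ![a, b]) (i1 j1 i2 j2 i3 j3 : ℤ) :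
    ¬ Collinear ℝ ({(i1 : ℝ) • a + (j1 : ℝ) • b, (i2 : ℝ) • a + (j2 : ℝ) • b,
      (i3 : ℝ) • a + (j3 : ℝ) • b} : Set Plane) ↔
      dt ((i2 - i1, i3 - i1), (j2 - j1, j3 - j1)) ≠ 0 := by
  rw [ncol_iff]
  have hab' := LinearIndependent.pair_iff.1 hab
  have e : ∀ s t : ℝ, s • ((i2 : ℝ) • a + (j2 : ℝ) • b - ((i1 : ℝ) • a + (j1 : ℝ) • b)) +
      t • ((i3 : ℝ) • a + (j3 : ℝ) • b - ((i1 : ℝ) • a + (j1 : ℝ) • b)) =
      (s * (i2 - i1) + t * (i3 - i1)) • a + (s * (j2 - j1) + t * (j3 - j1)) • b := by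
    intro s t
    module
  simp only [e, dt]
  rw [← Int.cast_ne_zero (α := ℝ)]
  push_cast
  generalize (i2 : ℝ) - i1 = u1
  generalize (j2 : ℝ) - j1 = u2
  generalize (i3 : ℝ) - i1 = v1
  generalize (j3 : ℝ) - j1 = v2
  constructor
  · intro h hd
    have k1 := h v2 (-u2) (by
      rw [show v2 * u1 + -u2 * v1 = 0 by linarith, show v2 * u2 + -u2 * v2 = 0 by ring]; simp)
    have k2 := h v1 (-u1) (by
      rw [show v1 * u1 + -u1 * v1 = 0 by ring, show v1 * u2 + -u1 * v2 = 0 by linarith]; simp)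
    have k3 := h 1 0 (by
      rw [show u1 = 0 by linarith [k2.2], show u2 = 0 by linarith [k1.2]]; simp)
    exact one_ne_zero k3.1
  · intro hd s t hst
    obtain ⟨k1, k2⟩ := hab' _ _ hst
    constructor
    · apply mul_left_cancel₀ hd
      linear_combination v2 * k1 - v1 * k2
    · apply mul_left_cancel₀ hd
      linear_combination u1 * k2 - u2 * k1

lemma numTri_sect {a b : Plane} (hab : LinearIndependent ℝ ![a, b]) (n m : ℕ)
    (hm : ∀ u : ℤ, (u : ℝ) < √(n : ℝ) ↔ u ≤ m) :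
    numTri (sect a b n) = Mc (‖a‖ ^ 2) (2 * inner ℝ a b) (‖b‖ ^ 2) m := by
  rw [numTri_eq, Mc, ← Set.ncard_coe_finset]
  congr 1
  have hs : ∀ i1 j1 i2 j2 i3 j3 : ℤ, sides ((i1 : ℝ) • a + (j1 : ℝ) • b)
      ((i2 : ℝ) • a + (j2 : ℝ) • b) ((i3 : ℝ) • a + (j3 : ℝ) • b) =
      ms (‖a‖ ^ 2) (2 * inner ℝ a b) (‖b‖ ^ 2) ((i2 - i1, i3 - i1), (j2 - j1, j3 - j1)) := by
    intro i1 j1 i2 j2 i3 j3
    simp only [sides, dist_sq_pt, ms, toM, gram, sub_sub_sub_cancel_right]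
  ext μ
  simp only [Set.mem_ofPred_eq, coe_image, Set.mem_image, mem_coe, sect, hm]
  constructor
  · rintro ⟨p, ⟨i1, j1, a1, a2, a3, a4, rfl⟩, q, ⟨i2, j2, b1, b2, b3, b4, rfl⟩,
      r, ⟨i3, j3, c1, c2, c3, c4, rfl⟩, hn, rfl⟩
    refine ⟨((i2 - i1, i3 - i1), (j2 - j1, j3 - j1)), ?_, (hs _ _ _ _ _ _).symm⟩
    rw [ncol_pt hab] at hn
    simp only [Omn, mem_filter, mem_Om, mem_H]
    refine ⟨?_, hn⟩
    omega
  · rintro ⟨⟨⟨s, t⟩, ⟨c, d⟩⟩, hx, rfl⟩
    simp only [Omn, mem_filter, mem_Om, mem_H] at hx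
    obtain ⟨hx, hd⟩ := hx
    obtain ⟨i, hi⟩ : ∃ i : ℤ, i = -min (min 0 s) t := ⟨_, rfl⟩
    obtain ⟨j, hj⟩ : ∃ j : ℤ, j = -min (min 0 c) d := ⟨_, rfl⟩
    refine ⟨_, ⟨i, j, by omega, by omega, by omega, by omega, rfl⟩,
      _, ⟨s + i, c + j, by omega, by omega, by omega, by omega, rfl⟩,
      _, ⟨t + i, d + j, by omega, by omega, by omega, by omega, rfl⟩, ?_, ?_⟩
    · rw [ncol_pt hab]
      simpa using hd
    · rw [hs]
      simp

end Pool.Agent.MP_047cd2_co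

end

section

namespace Pool.Agent.MP_047cd2_co

open Filter

lemma disc_pos {a b : Plane} (hab : LinearIndependent ℝ ![a, b]) :
    0 < ‖a‖ ^ 2 ∧ 0 < 4 * ‖a‖ ^ 2 * ‖b‖ ^ 2 - (2 * inner ℝ a b) ^ 2 := by
  have hab' := LinearIndependent.pair_iff.1 hab
  have ha : a ≠ 0 := by
    rintro rfl
    exact one_ne_zero (hab' 1 0 (by simp)).1
  have ha' : 0 < ‖a‖ ^ 2 := by positivity
  refine ⟨ha', ?_⟩
  have hw : (-inner ℝ a b) • a + (‖a‖ ^ 2) • b ≠ 0 := fun h => ha'.ne' (hab' _ _ h).2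
  have h1 : 0 < ‖(-inner ℝ a b) • a + (‖a‖ ^ 2) • b‖ ^ 2 := by positivity
  rw [norm_add_sq_real] at h1
  simp only [norm_smul, mul_pow, inner_smul_left, inner_smul_right, Real.norm_eq_abs, sq_abs,
    conj_trivial] at h1
  have h2 : 0 < ‖a‖ ^ 2 * (4 * ‖a‖ ^ 2 * ‖b‖ ^ 2 - (2 * inner ℝ a b) ^ 2) := by nlinarith
  exact (mul_pos_iff_of_pos_left ha').1 h2

lemma std_indep : LinearIndependent ℝ ![(!₂[1, 0] : Plane), (!₂[0, 1] : Plane)] := by
  rw [LinearIndependent.pair_iff]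
  intro s t h
  have h0 := congrArg (fun v : Plane => v 0) h
  have h1 := congrArg (fun v : Plane => v 1) h
  simp at h0 h1
  exact ⟨h0, h1⟩

lemma numTri_std (n m : ℕ) (hm : ∀ u : ℤ, (u : ℝ) < √(n : ℝ) ↔ u ≤ m) :
    numTri (sect !₂[1, 0] !₂[0, 1] n) = Mc 1 0 1 m := by
  rw [numTri_sect std_indep n m hm]
  congr 1
  · simp [EuclideanSpace.norm_sq_eq]
  · simp [PiLp.inner_apply]
  · simp [EuclideanSpace.norm_sq_eq]

lemma side_spec (n : ℕ) (hn : 1 ≤ n) (u : ℤ) :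
    (u : ℝ) < √(n : ℝ) ↔ u ≤ ((⌈√(n : ℝ)⌉₊ - 1 : ℕ) : ℤ) := by
  have h0 : 0 < √(n : ℝ) := Real.sqrt_pos.2 (by exact_mod_cast hn)
  have h1 : 0 < ⌈√(n : ℝ)⌉₊ := Nat.ceil_pos.2 h0
  have h2 : ((⌈√(n : ℝ)⌉₊ : ℕ) : ℤ) = ⌈√(n : ℝ)⌉ := Int.natCast_ceil_eq_ceil h0.le
  rw [← Int.lt_ceil]
  omega

lemma side_tendsto : Tendsto (fun n : ℕ => ⌈√(n : ℝ)⌉₊ - 1) atTop atTop :=
  (tendsto_sub_atTop_nat 1).comp (tendsto_nat_ceil_atTop.comp
    (Real.tendsto_sqrt_atTop.comp tendsto_natCast_atTop_atTop))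

lemma ratio_le {a b : Plane} (hab : LinearIndependent ℝ ![a, b]) (η : ℝ) (hη : 0 < η) :
    ∀ᶠ n : ℕ in atTop, (numTri (sect !₂[1, 0] !₂[0, 1] n) : ℝ) / (n : ℝ) ^ 2 ≤
      (numTri (sect a b n) : ℝ) / (n : ℝ) ^ 2 + η := by
  obtain ⟨h1, h2⟩ := disc_pos hab
  filter_upwards [side_tendsto.eventually (compare _ _ _ h1 h2 η hη), eventually_ge_atTop 1]
    with n hn hn1
  have hs := side_spec n hn1
  rw [numTri_std n _ hs, numTri_sect hab n _ hs]
  set m := ⌈√(n : ℝ)⌉₊ - 1 with hm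
  have h3 : ((m : ℤ) : ℝ) < √(n : ℝ) := (hs m).2 le_rfl
  have h4 : (m : ℝ) ^ 2 < n := by
    have : (m : ℝ) < √(n : ℝ) := by exact_mod_cast h3
    exact (Real.lt_sqrt (Nat.cast_nonneg m)).1 this
  have h5 : (m : ℝ) ^ 4 ≤ (n : ℝ) ^ 2 := by
    have := pow_le_pow_left₀ (by positivity) h4.le 2
    calc (m : ℝ) ^ 4 = ((m : ℝ) ^ 2) ^ 2 := by ring
      _ ≤ _ := this
  have hn0 : (0 : ℝ) < (n : ℝ) ^ 2 := by
    have : (0 : ℝ) < n := by exact_mod_cast hn1
    positivity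
  rw [div_add' _ _ _ hn0.ne', div_le_div_iff_of_pos_right hn0]
  have := mul_le_mul_of_nonneg_left h5 hη.le
  linarith

theorem main (a b : Plane) (hab : LinearIndependent ℝ ![a, b]) :
    lowerDensity !₂[1, 0] !₂[0, 1] ≤ lowerDensity a b := by
  refine le_of_forall_lt_imp_le_of_dense fun c hc => ?_
  obtain ⟨c1, h1, h2⟩ := EReal.lt_iff_exists_real_btwn.1 hc
  obtain ⟨c2, h3, h4⟩ := EReal.lt_iff_exists_real_btwn.1 h2
  have h5 : c1 < c2 := EReal.coe_lt_coe_iff.1 h3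
  refine h1.le.trans ?_
  refine le_liminf_of_le (by isBoundedDefault) ?_
  filter_upwards [eventually_lt_of_lt_liminf h4, ratio_le hab (c2 - c1) (by linarith)] with n a1 a2
  have := EReal.coe_lt_coe_iff.1 a1
  exact EReal.coe_le_coe_iff.2 (by linarith)

end Pool.Agent.MP_047cd2_co

end
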