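import Pool.Agent.Mg.F047cd2p.Gb123cc

section

namespace Pool.Agent.MP_047cd2_co

open Finset

/-- Normal forms of triangles in the square lattice. -/
noncomputable def NF (m : ℕ) : Finset X :=
  (range (m + 1)).biUnion (fun s => ((range (s / 2 + 1)).image (fun t : ℕ => ((s : ℤ), (t : ℤ)))) ×ˢ
    ((H s).filter (fun z => 0 ≤ z.1)))

lemma card_NF (m : ℕ) : ((NF m).card : ℝ) ≤ 3 / 16 * (m : ℝ) ^ 4 + 7 * ((m : ℝ) + 1) ^ 3 := by
  have h1 : ((NF m).card : ℝ) ≤ ∑ s ∈ range (m + 1),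
      ((((range (s / 2 + 1)).image (fun t : ℕ => ((s : ℤ), (t : ℤ)))) ×ˢ
        ((H s).filter (fun z => 0 ≤ z.1))).card : ℝ) := by
    exact_mod_cast card_biUnion_le
  have h2 : ∀ s ∈ range (m + 1), ((((range (s / 2 + 1)).image (fun t : ℕ => ((s : ℤ), (t : ℤ)))) ×ˢ
        ((H s).filter (fun z => 0 ≤ z.1))).card : ℝ) ≤
        1 + 3 * (s : ℝ) + (11 / 4) * (s : ℝ) ^ 2 + (3 / 4) * (s : ℝ) ^ 3 := by
    intro s _
    have h := card_region 0 s (-s) s 0 s ((H s).filter (fun z => 0 ≤ z.1)) (by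
      intro z
      simp only [mem_filter, mem_H]
      omega) (by omega) (by omega) (by omega) (by omega) (by omega)
    have h' : (2 : ℝ) * (((H s).filter (fun z => 0 ≤ z.1)).card : ℝ) =
        2 * (s - 0 + 1) * (s - -s + 1) - 0 * (0 + 1) - s * (s + 1) := by exact_mod_cast h
    have h3 : (((range (s / 2 + 1)).image (fun t : ℕ => ((s : ℤ), (t : ℤ)))).card : ℝ) ≤
        (s : ℝ) / 2 + 1 := by
      have a1 : ((range (s / 2 + 1)).image (fun t : ℕ => ((s : ℤ), (t : ℤ)))).card ≤ s / 2 + 1 := by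
        simpa using card_image_le (s := range (s / 2 + 1)) (f := fun t : ℕ => ((s : ℤ), (t : ℤ)))
      have a2 : ((s / 2 : ℕ) : ℝ) ≤ (s : ℝ) / 2 := by exact_mod_cast Nat.cast_div_le (α := ℝ)
      have a3 : (((range (s / 2 + 1)).image (fun t : ℕ => ((s : ℤ), (t : ℤ)))).card : ℝ) ≤
        ((s / 2 : ℕ) : ℝ) + 1 := by exact_mod_cast a1
      linarith
    rw [card_product]
    push_cast
    have h4 : (((H s).filter (fun z => 0 ≤ z.1)).card : ℝ) = (s + 1) * (3 * s + 2) / 2 := by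
      linarith
    rw [h4]
    have h5 : (0 : ℝ) ≤ (s + 1) * (3 * s + 2) / 2 := by positivity
    refine (mul_le_mul_of_nonneg_right h3 h5).trans (le_of_eq ?_)
    ring
  refine h1.trans ((sum_le_sum h2).trans ?_)
  rw [sum_cubic]
  push_cast
  have : (0 : ℝ) ≤ m := Nat.cast_nonneg m
  nlinarith [pow_nonneg this 2, pow_nonneg this 3]

/-- The width of a pattern. -/
def wd (z : ℤ × ℤ) : ℤ := max (max 0 z.1) z.2 - min (min 0 z.1) z.2

lemma good0 (m : ℕ) (s t a b : ℤ) (h1 : 0 ≤ t) (h2 : 2 * t ≤ s) (h3 : s ≤ m) (h4 : wd (a, b) ≤ s)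
    (h5 : 0 ≤ a) : ms 1 0 1 ((s, t), (a, b)) ∈ (NF m).image (ms 1 0 1) := by
  refine mem_image_of_mem _ ?_
  simp only [NF, mem_biUnion, mem_range, mem_product, mem_image, mem_filter, mem_H, Prod.mk.injEq]
  simp only [wd] at h4
  refine ⟨s.toNat, by omega, ⟨t.toNat, by omega, by omega, by omega⟩, ?_⟩
  omega

lemma good1 (m : ℕ) (s t a b : ℤ) (h1 : 0 ≤ t) (h2 : 2 * t ≤ s) (h3 : s ≤ m) (h4 : wd (a, b) ≤ s) :
    ms 1 0 1 ((s, t), (a, b)) ∈ (NF m).image (ms 1 0 1) := by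
  by_cases h5 : 0 ≤ a
  · exact good0 m s t a b h1 h2 h3 h4 h5
  · have := good0 m s t (-a) (-b) h1 h2 h3 (by simp only [wd] at h4 ⊢; omega) (by omega)
    convert this using 1
    simp only [ms, toM, gram, qf]
    push_cast
    congr 1
    · ring
    · congr 1
      · ring
      · congr 1; ring

lemma ms_refl (s t a b : ℤ) :
    ms 1 0 1 ((s, s - t), (a, a - b)) = ms 1 0 1 ((s, t), (a, b)) := by
  simp only [ms, toM, gram, sub_sub_cancel]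
  exact perm_132 _ _ _

lemma qf_neg (A B C : ℝ) (s t : ℤ) : qf A B C (-s) (-t) = qf A B C s t := by
  simp only [qf]; push_cast; ring

lemma ms_rot (s t a b : ℤ) :
    ms 1 0 1 ((s - t, s), (a - b, a)) = ms 1 0 1 ((s, t), (a, b)) := by
  simp only [ms, toM, gram, sub_sub_cancel_left, qf_neg]
  exact perm_312 _ _ _

lemma good2 (m : ℕ) (s t a b : ℤ) (h1 : 0 ≤ t) (h2 : t ≤ s) (h3 : s ≤ m) (h4 : wd (a, b) ≤ s) :
    ms 1 0 1 ((s, t), (a, b)) ∈ (NF m).image (ms 1 0 1) := by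
  by_cases h5 : 2 * t ≤ s
  · exact good1 m s t a b h1 h5 h3 h4
  · rw [← ms_refl]
    exact good1 m s (s - t) a (a - b) (by omega) (by omega) h3 (by simp only [wd] at h4 ⊢; omega)

lemma good3 (m : ℕ) (s t a b : ℤ) (h3 : wd (s, t) ≤ m) (h4 : wd (a, b) ≤ wd (s, t)) :
    ms 1 0 1 ((s, t), (a, b)) ∈ (NF m).image (ms 1 0 1) := by
  simp only [wd] at h3 h4
  by_cases c0 : 0 ≤ t ∧ t ≤ s
  · exact good2 m _ _ _ _ (by omega) (by omega) (by omega) (by simp only [wd]; omega)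
  rw [← ms_rot]
  by_cases c1 : 0 ≤ s ∧ t ≤ 0
  · exact good2 m _ _ _ _ (by omega) (by omega) (by omega) (by simp only [wd]; omega)
  rw [← ms_rot]
  by_cases c2 : t ≤ s ∧ s ≤ 0
  · exact good2 m _ _ _ _ (by omega) (by omega) (by omega) (by simp only [wd]; omega)
  rw [← ms_rot]
  by_cases c3 : s ≤ t ∧ t ≤ 0
  · exact good2 m _ _ _ _ (by omega) (by omega) (by omega) (by simp only [wd]; omega)
  rw [← ms_rot]
  by_cases c4 : s ≤ 0 ∧ 0 ≤ t
  · exact good2 m _ _ _ _ (by omega) (by omega) (by omega) (by simp only [wd]; omega)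
  rw [← ms_rot]
  exact good2 m _ _ _ _ (by omega) (by omega) (by omega) (by simp only [wd]; omega)

lemma good4 (m : ℕ) (x : X) (hx : x ∈ Om m) : ms 1 0 1 x ∈ (NF m).image (ms 1 0 1) := by
  obtain ⟨⟨s, t⟩, ⟨a, b⟩⟩ := x
  simp only [mem_Om, mem_H] at hx
  by_cases h : wd (a, b) ≤ wd (s, t)
  · exact good3 m s t a b (by simp only [wd]; omega) h
  · have := good3 m a b s t (by simp only [wd]; omega) (by omega)
    convert this using 1
    simp only [ms, toM, gram, qf]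
    push_cast
    congr 1
    · ring
    · congr 1
      · ring
      · congr 1; ring

lemma Mc_sq_le (m : ℕ) : (Mc 1 0 1 m : ℝ) ≤ 3 / 16 * (m : ℝ) ^ 4 + 7 * ((m : ℝ) + 1) ^ 3 := by
  refine le_trans ?_ (card_NF m)
  have : Mc 1 0 1 m ≤ (NF m).card := by
    refine le_trans (card_le_card ?_) (card_image_le (s := NF m) (f := ms 1 0 1))
    intro y hy
    obtain ⟨x, hx, rfl⟩ := mem_image.1 hy
    exact good4 m x (mem_filter.1 hx).1
  exact_mod_cast this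

end Pool.Agent.MP_047cd2_co

end

section

namespace Pool.Agent.MP_047cd2_co

open Finset Filter

/-- Both edge vectors lie on the chosen line modulo some prime of the family. -/
def Bad (P : ℕ → Prop) (α β : ℕ → ℤ) (x : X) : Prop :=
  ∃ p : ℕ, p.Prime ∧ P p ∧ (p : ℤ) ∣ α p * x.1.1 + β p * x.2.1 ∧ (p : ℤ) ∣ α p * x.1.2 + β p * x.2.2

lemma pi_small (θ : ℝ) (hθ : 0 < θ) :
    ∀ᶠ m : ℕ in atTop, (((range (2 * m ^ 2 + 1)).filter Nat.Prime).card : ℝ) ≤ θ * (m : ℝ) ^ 2 := by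
  have h1 := Chebyshev.eventually_primeCounting_le (ε := 1) one_pos
  have h2 : ∀ᶠ x : ℝ in atTop, 2 * (Real.log 4 + 1) / θ ≤ Real.log x :=
    Real.tendsto_log_atTop.eventually_ge_atTop _
  have h3 : Tendsto (fun m : ℕ => ((2 * m ^ 2 : ℕ) : ℝ)) atTop atTop := by
    refine tendsto_natCast_atTop_atTop.comp ?_
    refine tendsto_atTop_mono (fun m => ?_) tendsto_id
    simp only [id]
    nlinarith
  filter_upwards [h3.eventually (h1.and h2)] with m hm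
  obtain ⟨a1, a2⟩ := hm
  rw [Nat.floor_natCast] at a1
  have e : ((range (2 * m ^ 2 + 1)).filter Nat.Prime).card = Nat.primeCounting (2 * m ^ 2) := by
    rw [Nat.primeCounting, Nat.primeCounting', Nat.count_eq_card_filter_range]
  rw [e]
  refine a1.trans ?_
  have hl : 0 < Real.log 4 + 1 := by have := Real.log_pos (show (1 : ℝ) < 4 by norm_num); linarith
  have hp : 0 < 2 * (Real.log 4 + 1) / θ := by positivity
  have hlog : 0 < Real.log ((2 * m ^ 2 : ℕ) : ℝ) := lt_of_lt_of_le hp a2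
  rw [div_le_iff₀ hlog]
  rw [div_le_iff₀ hθ] at a2
  have hm : (0 : ℝ) ≤ (m : ℝ) ^ 2 := by positivity
  have := mul_le_mul_of_nonneg_right a2 hm
  push_cast at this ⊢
  nlinarith

open Classical in
lemma card_bad (P : ℕ → Prop) (α β : ℕ → ℤ)
    (hαβ : ∀ p : ℕ, p.Prime → ¬ ((p : ℤ) ∣ α p ∧ (p : ℤ) ∣ β p)) (δ : ℝ)
    (hδ : ∀ s : Finset ℕ, (∀ p ∈ s, p.Prime ∧ P p) → ∑ p ∈ s, 1 / (p : ℝ) ^ 2 ≤ δ)
    (η : ℝ) (hη : 0 < η) :
    ∀ᶠ m : ℕ in atTop, (((Omn m).filter (Bad P α β)).card : ℝ) ≤ (9 * δ + η) * (m : ℝ) ^ 4 := by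
  have hδ0 : 0 ≤ δ := by simpa using hδ ∅ (by simp)
  obtain ⟨ε, hε, hε1, hε2⟩ : ∃ ε : ℝ, 0 < ε ∧ ε ≤ 1 ∧ ε * (27 * δ + 18) ≤ η := by
    refine ⟨min 1 (η / (27 * δ + 18)), by positivity, min_le_left _ _, ?_⟩
    have := min_le_right 1 (η / (27 * δ + 18))
    rwa [le_div_iff₀ (by positivity)] at this
  have h2 : ∀ᶠ m : ℕ in atTop, 2 / ε + 1 ≤ (m : ℝ) :=
    tendsto_natCast_atTop_atTop.eventually_ge_atTop _
  filter_upwards [pi_small (ε ^ 2 / (4 * (1 + ε))) (by positivity), h2] with m hm hm2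
  set s := (range (2 * m ^ 2 + 1)).filter (fun p => p.Prime ∧ P p) with hs
  have hsub : (Omn m).filter (Bad P α β) ⊆ s.biUnion (fun p => (Om m).filter
      (fun x => (p : ℤ) ∣ α p * x.1.1 + β p * x.2.1 ∧ (p : ℤ) ∣ α p * x.1.2 + β p * x.2.2)) := by
    intro x hx
    simp only [Omn, mem_filter] at hx
    obtain ⟨⟨hx1, hx2⟩, p, hp, hP, d1, d2⟩ := hx
    simp only [mem_biUnion, mem_filter, hs, mem_range]
    refine ⟨p, ⟨?_, hp, hP⟩, hx1, d1, d2⟩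
    have hpz : Prime (p : ℤ) := Nat.prime_iff_prime_int.1 hp
    have e1 : (p : ℤ) ∣ α p * dt x := by
      have := dvd_sub (d1.mul_left x.2.2) (d2.mul_left x.2.1)
      rwa [show x.2.2 * (α p * x.1.1 + β p * x.2.1) - x.2.1 * (α p * x.1.2 + β p * x.2.2) =
        α p * dt x by simp only [dt]; ring] at this
    have e2 : (p : ℤ) ∣ β p * dt x := by
      have := dvd_sub (d2.mul_left x.1.1) (d1.mul_left x.1.2)
      rwa [show x.1.1 * (α p * x.1.2 + β p * x.2.2) - x.1.2 * (α p * x.1.1 + β p * x.2.1) =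
        β p * dt x by simp only [dt]; ring] at this
    have e3 : (p : ℤ) ∣ dt x := by
      by_contra hh
      exact hαβ p hp ⟨(hpz.dvd_or_dvd e1).resolve_right hh, (hpz.dvd_or_dvd e2).resolve_right hh⟩
    have e4 : (p : ℤ) ≤ |dt x| := Int.le_of_dvd (abs_pos.2 hx2) ((dvd_abs _ _).2 e3)
    simp only [mem_Om, mem_H] at hx1
    obtain ⟨⟨b1, b2, b3, b4, -, -⟩, c1, c2, c3, c4, -, -⟩ := hx1
    have e5 : |dt x| ≤ 2 * (m : ℤ) ^ 2 := by
      rw [abs_le]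
      simp only [dt]
      constructor <;> nlinarith
    have : (p : ℤ) < 2 * (m : ℤ) ^ 2 + 1 := by linarith
    exact_mod_cast this
  have h3 : (((Omn m).filter (Bad P α β)).card : ℝ) ≤ ∑ p ∈ s, (((Om m).filter
      (fun x => (p : ℤ) ∣ α p * x.1.1 + β p * x.2.1 ∧
        (p : ℤ) ∣ α p * x.1.2 + β p * x.2.2)).card : ℝ) := by
    exact_mod_cast (card_le_card hsub).trans card_biUnion_le
  have h4 : ∀ p ∈ s, (((Om m).filter
      (fun x => (p : ℤ) ∣ α p * x.1.1 + β p * x.2.1 ∧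
        (p : ℤ) ∣ α p * x.1.2 + β p * x.2.2)).card : ℝ) ≤
      (H m).card * (3 * ((1 + ε) * (m : ℝ) ^ 2)) * (1 / (p : ℝ) ^ 2) +
        (H m).card * (3 * (4 * (1 + ε) / ε)) := by
    intro p hp
    have hpp : p.Prime := (mem_filter.1 hp).2.1
    refine (card_line m p hpp _ _ (hαβ p hpp)).trans ?_
    have hH : (0 : ℝ) ≤ (H m).card := Nat.cast_nonneg _
    have key : ((m : ℝ) / p + 2) ^ 2 ≤
        (1 + ε) * (m : ℝ) ^ 2 * (1 / (p : ℝ) ^ 2) + 4 * (1 + ε) / ε := by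
      have : (1 + ε) * (m : ℝ) ^ 2 * (1 / (p : ℝ) ^ 2) = (1 + ε) * ((m : ℝ) / p) ^ 2 := by
        rw [div_pow]; ring
      rw [this]
      generalize (m : ℝ) / p = y
      have h5 : 4 * (1 + ε) / ε = 4 + 4 / ε := by field_simp; ring
      have h6 : 0 ≤ ε * (y - 2 / ε) ^ 2 := by positivity
      have h7 : ε * (y - 2 / ε) ^ 2 = ε * y ^ 2 - 4 * y + 4 / ε := by field_simp; ring
      rw [h5]
      nlinarith
    have := mul_le_mul_of_nonneg_left key (show (0 : ℝ) ≤ (H m).card * 3 by positivity)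
    nlinarith
  refine h3.trans ((sum_le_sum h4).trans ?_)
  rw [sum_add_distrib, ← mul_sum, sum_const, nsmul_eq_mul]
  have h5 := hδ s (fun p hp => (mem_filter.1 hp).2)
  have h6 : (s.card : ℝ) ≤ ε ^ 2 / (4 * (1 + ε)) * (m : ℝ) ^ 2 := by
    refine le_trans ?_ hm
    have : s ⊆ (range (2 * m ^ 2 + 1)).filter Nat.Prime := by
      intro p hp
      simp only [hs, mem_filter] at hp ⊢
      exact ⟨hp.1, hp.2.1⟩
    exact_mod_cast card_le_card this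
  have h7 : ((H m).card : ℝ) ≤ 3 * (1 + ε) * (m : ℝ) ^ 2 := by
    rw [card_H]
    have a1 : 0 < 2 / ε := by positivity
    have a2 : 2 ≤ ε * m := by
      have : 2 / ε ≤ (m : ℝ) := by linarith
      rw [div_le_iff₀ hε] at this
      linarith
    nlinarith
  have hH : (0 : ℝ) ≤ (H m).card := Nat.cast_nonneg _
  have hm0 : (0 : ℝ) ≤ (m : ℝ) ^ 2 := by positivity
  have b1 : (H m).card * (3 * ((1 + ε) * (m : ℝ) ^ 2)) * ∑ p ∈ s, 1 / (p : ℝ) ^ 2 ≤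
      (3 * (1 + ε) * (m : ℝ) ^ 2) * (3 * ((1 + ε) * (m : ℝ) ^ 2)) * δ := by
    refine mul_le_mul (mul_le_mul_of_nonneg_right h7 (by positivity)) h5 (by positivity)
      (by positivity)
  have b2 : (s.card : ℝ) * ((H m).card * (3 * (4 * (1 + ε) / ε))) ≤
      (ε ^ 2 / (4 * (1 + ε)) * (m : ℝ) ^ 2) * ((3 * (1 + ε) * (m : ℝ) ^ 2) *
        (3 * (4 * (1 + ε) / ε))) := by
    refine mul_le_mul h6 (mul_le_mul_of_nonneg_right h7 (by positivity)) (by positivity)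
      (by positivity)
  have b3 : (ε ^ 2 / (4 * (1 + ε)) * (m : ℝ) ^ 2) * ((3 * (1 + ε) * (m : ℝ) ^ 2) *
        (3 * (4 * (1 + ε) / ε))) = 9 * (1 + ε) * ε * (m : ℝ) ^ 4 := by
    field_simp; ring
  have b4 : (3 * (1 + ε) * (m : ℝ) ^ 2) * (3 * ((1 + ε) * (m : ℝ) ^ 2)) * δ =
      9 * (1 + ε) ^ 2 * δ * (m : ℝ) ^ 4 := by ring
  have b5 : 9 * (1 + ε) ^ 2 * δ + 9 * (1 + ε) * ε ≤ 9 * δ + η := by
    have c1 : ε * ε ≤ ε := by nlinarith
    have c2 : ε * ε * δ ≤ ε * δ := mul_le_mul_of_nonneg_right c1 hδ0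
    nlinarith
  have b6 := mul_le_mul_of_nonneg_right b5 (show (0 : ℝ) ≤ (m : ℝ) ^ 4 by positivity)
  linarith

lemma sum_odd_le (j : ℕ) (hj : 0 < j) (s : Finset ℕ) (hs : ∀ p ∈ s, p % 2 = 1 ∧ 2 * j + 1 ≤ p) :
    ∑ p ∈ s, 1 / (p : ℝ) ^ 2 ≤ 1 / (4 * (j : ℝ)) := by
  have hj' : (0 : ℝ) < j := by exact_mod_cast hj
  have key : ∀ n : ℕ, ∑ i ∈ range n, 1 / ((2 * (j + i) + 1 : ℕ) : ℝ) ^ 2 ≤
      1 / (4 * (j : ℝ)) - 1 / (4 * ((j : ℝ) + n)) := by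
    intro n
    induction n with
    | zero => simp
    | succ n ih =>
      rw [sum_range_succ]
      have hn : (0 : ℝ) ≤ n := Nat.cast_nonneg n
      have : 1 / ((2 * (j + n) + 1 : ℕ) : ℝ) ^ 2 ≤
          1 / (4 * ((j : ℝ) + n)) - 1 / (4 * ((j : ℝ) + (n + 1 : ℕ))) := by
        push_cast
        have e : 1 / (4 * ((j : ℝ) + n)) - 1 / (4 * ((j : ℝ) + (n + 1))) =
            1 / (4 * ((j : ℝ) + n) * (j + n + 1)) := by
          field_simp; ring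
        rw [e]
        refine one_div_le_one_div_of_le (by positivity) (by nlinarith)
      linarith
  obtain ⟨n, hn⟩ : ∃ n, ∀ p ∈ s, p < n := ⟨s.sup id + 1, fun p hp =>
    Nat.lt_succ_of_le (le_sup (f := id) hp)⟩
  have hsub : s ⊆ (range n).image (fun i => 2 * (j + i) + 1) := by
    intro p hp
    have := hs p hp
    have := hn p hp
    simp only [mem_image, mem_range]
    exact ⟨p / 2 - j, by omega, by omega⟩
  have h1 : ∑ p ∈ s, 1 / (p : ℝ) ^ 2 ≤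
      ∑ p ∈ (range n).image (fun i => 2 * (j + i) + 1), 1 / (p : ℝ) ^ 2 :=
    sum_le_sum_of_subset_of_nonneg hsub (fun _ _ _ => by positivity)
  rw [sum_image (by intro a _ b _ h; simp only at h; omega)] at h1
  have h2 := key n
  have h3 : 0 ≤ 1 / (4 * ((j : ℝ) + n)) := by positivity
  linarith

lemma sum_primes_all (s : Finset ℕ) (hs : ∀ p ∈ s, p.Prime ∧ True) :
    ∑ p ∈ s, 1 / (p : ℝ) ^ 2 ≤ 1 / 2 := by
  have h1 := sum_odd_le 1 one_pos (s.erase 2) (by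
    intro p hp
    rw [mem_erase] at hp
    have h := (hs p hp.2).1
    have := h.two_le
    have := h.eq_two_or_odd
    omega)
  by_cases h2 : 2 ∈ s
  · rw [← add_sum_erase s _ h2]
    norm_num at h1 ⊢
    linarith
  · rw [erase_eq_of_notMem h2] at h1
    norm_num at h1 ⊢
    linarith

lemma sum_primes_odd (s : Finset ℕ) (hs : ∀ p ∈ s, p.Prime ∧ p ≠ 2) :
    ∑ p ∈ s, 1 / (p : ℝ) ^ 2 ≤ 1 / 4 := by
  have h1 := sum_odd_le 1 one_pos s (by
    intro p hp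
    have h := (hs p hp).1
    have := (hs p hp).2
    have := h.two_le
    have := h.eq_two_or_odd
    omega)
  simpa using h1

lemma sum_primes_seven (s : Finset ℕ) (hs : ∀ p ∈ s, p.Prime ∧ (p ≠ 2 ∧ p ≠ 3 ∧ p ≠ 5)) :
    ∑ p ∈ s, 1 / (p : ℝ) ^ 2 ≤ 1 / 12 := by
  have h1 := sum_odd_le 3 (by norm_num) s (by
    intro p hp
    have h := (hs p hp).1
    have := (hs p hp).2
    have := h.two_le
    have := h.eq_two_or_odd
    omega)
  norm_num at h1 ⊢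
  exact h1

end Pool.Agent.MP_047cd2_co

end

section

namespace Pool.Agent.MP_047cd2_co

open Finset

lemma rot_rel_real (A B C u1 u2 v1 v2 a1 a2 b1 b2 : ℝ)
    (h1 : A * a1 ^ 2 + B * a1 * a2 + C * a2 ^ 2 = A * u1 ^ 2 + B * u1 * u2 + C * u2 ^ 2)
    (h2 : A * b1 ^ 2 + B * b1 * b2 + C * b2 ^ 2 = A * v1 ^ 2 + B * v1 * v2 + C * v2 ^ 2)
    (h3 : A * (a1 - b1) ^ 2 + B * (a1 - b1) * (a2 - b2) + C * (a2 - b2) ^ 2 =
      A * (u1 - v1) ^ 2 + B * (u1 - v1) * (u2 - v2) + C * (u2 - v2) ^ 2)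
    (hd : a1 * b2 - a2 * b1 = u1 * v2 - u2 * v1) (hd0 : u1 * v2 - u2 * v1 ≠ 0) :
    A * ((-a2 * v1 + b2 * u1) - (a1 * v2 - b1 * u2)) = B * (a2 * v2 - b2 * u2) ∧
    A * (-a1 * v1 + b1 * u1) + C * (a2 * v2 - b2 * u2) = 0 ∧
    B * (-a1 * v1 + b1 * u1) + C * ((-a2 * v1 + b2 * u1) - (a1 * v2 - b1 * u2)) = 0 := by
  have hb : 2 * A * a1 * b1 + B * (a1 * b2 + a2 * b1) + 2 * C * a2 * b2 =
      2 * A * u1 * v1 + B * (u1 * v2 + u2 * v1) + 2 * C * u2 * v2 := by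
    linear_combination h1 + h2 - h3
  refine ⟨?_, ?_, ?_⟩
  · apply mul_left_cancel₀ hd0
    linear_combination (-(v2 * b2)) * h1 + (u2 * b2 + a2 * v2) / 2 * hb - u2 * a2 * h2 +
      (2 * A * (a1 * v2 - b1 * u2) + B * (a2 * v2 - b2 * u2)) / 2 * hd
  · apply mul_left_cancel₀ hd0
    linear_combination (-(v1 * b2)) * h1 + (u1 * b2 + a2 * v1) / 2 * hb - u1 * a2 * h2 -
      (2 * A * (-a1 * v1 + b1 * u1) + B * (-a2 * v1 + b2 * u1)) / 2 * hd
  · apply mul_left_cancel₀ hd0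
    linear_combination (v1 * b1) * h1 - (u1 * b1 + a1 * v1) / 2 * hb + u1 * a1 * h2 -
      (B * (-a1 * v1 + b1 * u1) + 2 * C * (-a2 * v1 + b2 * u1)) / 2 * hd

lemma dt_eq {A B C : ℝ} (hD : 0 < 4 * A * C - B ^ 2) {x y : X} (h : Rel A B C x y) :
    dt y = dt x := by
  obtain ⟨hg, hs⟩ := h
  simp only [gram, qf, Prod.mk.injEq] at hg
  obtain ⟨h1, h2, h3⟩ := hg
  push_cast at h1 h2 h3
  have key : ∀ z : X, (4 * A * C - B ^ 2) * ((dt z : ℤ) : ℝ) ^ 2 =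
      4 * (A * (z.1.1 : ℝ) ^ 2 + B * z.1.1 * z.2.1 + C * (z.2.1 : ℝ) ^ 2) *
        (A * (z.1.2 : ℝ) ^ 2 + B * z.1.2 * z.2.2 + C * (z.2.2 : ℝ) ^ 2) -
      ((A * (z.1.1 : ℝ) ^ 2 + B * z.1.1 * z.2.1 + C * (z.2.1 : ℝ) ^ 2) +
        (A * (z.1.2 : ℝ) ^ 2 + B * z.1.2 * z.2.2 + C * (z.2.2 : ℝ) ^ 2) -
        (A * ((z.1.1 : ℝ) - z.1.2) ^ 2 + B * (z.1.1 - z.1.2) * (z.2.1 - z.2.2) +
          C * ((z.2.1 : ℝ) - z.2.2) ^ 2)) ^ 2 := by
    intro z
    simp only [dt]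
    push_cast
    ring
  have e : (4 * A * C - B ^ 2) * ((dt y : ℤ) : ℝ) ^ 2 =
      (4 * A * C - B ^ 2) * ((dt x : ℤ) : ℝ) ^ 2 := by
    rw [key, key, h1, h2, h3]
  have e2 : ((dt y : ℤ) : ℝ) ^ 2 = ((dt x : ℤ) : ℝ) ^ 2 := mul_left_cancel₀ hD.ne' e
  have e3 : dt y ^ 2 = dt x ^ 2 := by exact_mod_cast e2
  rcases sq_eq_sq_iff_eq_or_eq_neg.1 e3 with h | h
  · exact h
  · rw [h] at hs ⊢
    by_cases h0 : 0 < dt x
    · have := hs.2 h0; omega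
    · have : ¬ (0 < -dt x) := fun hh => h0 (hs.1 hh)
      omega

/-- Entries of the integral multiple of the linear map taking `x` to `y`. -/
def g11 (x y : X) : ℤ := y.1.1 * x.2.2 - y.1.2 * x.2.1
/-- Second entry. -/
def g12 (x y : X) : ℤ := -y.1.1 * x.1.2 + y.1.2 * x.1.1
/-- Third entry. -/
def g21 (x y : X) : ℤ := y.2.1 * x.2.2 - y.2.2 * x.2.1
/-- Fourth entry. -/
def g22 (x y : X) : ℤ := -y.2.1 * x.1.2 + y.2.2 * x.1.1

lemma rot_rel {A B C : ℝ} (hD : 0 < 4 * A * C - B ^ 2) {x y : X} (h : Rel A B C x y)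
    (hx : dt x ≠ 0) :
    A * ((g22 x y - g11 x y : ℤ) : ℝ) = B * (g21 x y : ℤ) ∧
    A * (g12 x y : ℤ) + C * (g21 x y : ℤ) = 0 ∧
    B * (g12 x y : ℤ) + C * ((g22 x y - g11 x y : ℤ) : ℝ) = 0 := by
  have hd := dt_eq hD h
  obtain ⟨hg, -⟩ := h
  simp only [gram, qf, Prod.mk.injEq] at hg
  obtain ⟨h1, h2, h3⟩ := hg
  push_cast at h1 h2 h3
  have hd' : ((dt y : ℤ) : ℝ) = dt x := by exact_mod_cast hd
  have hx' : ((dt x : ℤ) : ℝ) ≠ 0 := by exact_mod_cast hx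
  simp only [dt] at hd' hx'
  push_cast at hd' hx'
  have := rot_rel_real A B C x.1.1 x.2.1 x.1.2 x.2.2 y.1.1 y.2.1 y.1.2 y.2.2 h1 h2 h3 hd' hx'
  simp only [g11, g12, g21, g22]
  push_cast
  exact this

/-- The action of the automorph matrix with parameters `r, σ`. -/
def act (A B C r σ : ℤ) (x : X) : X :=
  ((r * x.1.1 - C * σ * x.2.1, r * x.1.2 - C * σ * x.2.2),
    (A * σ * x.1.1 + (r + B * σ) * x.2.1, A * σ * x.1.2 + (r + B * σ) * x.2.2))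

lemma scalar_case {x y : X} (hd : dt y = dt x) (hx : dt x ≠ 0) (h1 : g21 x y = 0)
    (h2 : g22 x y - g11 x y = 0) (h3 : g12 x y = 0) : y = x ∨ y = -x := by
  obtain ⟨⟨u1, v1⟩, ⟨u2, v2⟩⟩ := x
  obtain ⟨⟨a1, b1⟩, ⟨a2, b2⟩⟩ := y
  simp only [dt, g11, g12, g21, g22] at *
  set g := a1 * v2 - b1 * u2 with hg
  set d := u1 * v2 - u2 * v1 with hdd
  have e1 : g * u1 = d * a1 := by rw [hg, hdd]; linear_combination (-u2) * h3
  have e2 : g * v1 = d * b1 := by rw [hg, hdd]; linear_combination (-v2) * h3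
  have e3 : g * u2 = d * a2 := by rw [hg, hdd]; linear_combination (-u1) * h1 - u2 * h2
  have e4 : g * v2 = d * b2 := by rw [hg, hdd]; linear_combination (-v1) * h1 - v2 * h2
  have e5 : d * g ^ 2 = d * d ^ 2 := by
    have : g ^ 2 * (u1 * v2 - u2 * v1) = d ^ 2 * (a1 * b2 - a2 * b1) := by
      linear_combination (g * v2) * e1 + (d * a1) * e4 - (g * v1) * e3 - (d * a2) * e2
    rw [hd, ← hdd] at this
    linarith
  have e6 := mul_left_cancel₀ hx e5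
  rcases sq_eq_sq_iff_eq_or_eq_neg.1 e6 with h | h
  · left
    rw [h] at e1 e2 e3 e4
    simp only [Prod.mk.injEq]
    exact ⟨⟨(mul_left_cancel₀ hx e1).symm, (mul_left_cancel₀ hx e2).symm⟩,
      (mul_left_cancel₀ hx e3).symm, (mul_left_cancel₀ hx e4).symm⟩
  · right
    rw [h] at e1 e2 e3 e4
    simp only [Prod.neg_mk, Prod.mk.injEq]
    refine ⟨⟨mul_left_cancel₀ hx ?_, mul_left_cancel₀ hx ?_⟩, mul_left_cancel₀ hx ?_,
      mul_left_cancel₀ hx ?_⟩ <;> linarith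

lemma exists_lines (A B C a b c : ℤ) (hbez : a * A + b * B + c * C = 1) :
    ∃ α β : ℕ → ℤ, (∀ p : ℕ, p.Prime → ¬ ((p : ℤ) ∣ α p ∧ (p : ℤ) ∣ β p)) ∧
      ∀ p : ℕ, p.Prime → ∀ r σ : ℤ, ¬ (p : ℤ) ∣ σ → (p : ℤ) ∣ r ^ 2 + B * σ * r + A * C * σ ^ 2 →
        (∀ u1 u2 : ℤ, (p : ℤ) ∣ r * u1 - C * σ * u2 → (p : ℤ) ∣ A * σ * u1 + (r + B * σ) * u2 →
          (p : ℤ) ∣ α p * u1 + β p * u2) ∨
        (∀ u1 u2 : ℤ, (p : ℤ) ∣ (r + B * σ) * u1 + C * σ * u2 → (p : ℤ) ∣ -A * σ * u1 + r * u2 →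
          (p : ℤ) ∣ α p * u1 + β p * u2) := by
  have key : ∀ p : ℕ, ∃ w : ℤ × ℤ, p.Prime → (¬ ((p : ℤ) ∣ w.1 ∧ (p : ℤ) ∣ w.2)) ∧
      ∀ r σ : ℤ, ¬ (p : ℤ) ∣ σ → (p : ℤ) ∣ r ^ 2 + B * σ * r + A * C * σ ^ 2 →
        (∀ u1 u2 : ℤ, (p : ℤ) ∣ r * u1 - C * σ * u2 → (p : ℤ) ∣ A * σ * u1 + (r + B * σ) * u2 →
          (p : ℤ) ∣ w.1 * u1 + w.2 * u2) ∨
        (∀ u1 u2 : ℤ, (p : ℤ) ∣ (r + B * σ) * u1 + C * σ * u2 → (p : ℤ) ∣ -A * σ * u1 + r * u2 →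
          (p : ℤ) ∣ w.1 * u1 + w.2 * u2) := by
    intro p
    by_cases hp : p.Prime
    swap
    · exact ⟨(1, 0), fun h => absurd h hp⟩
    have hpz : Prime (p : ℤ) := Nat.prime_iff_prime_int.1 hp
    have : Fact p.Prime := ⟨hp⟩
    by_cases hroot : ∃ r0 σ0 : ℤ, ¬ (p : ℤ) ∣ σ0 ∧ (p : ℤ) ∣ r0 ^ 2 + B * σ0 * r0 + A * C * σ0 ^ 2
    swap
    · refine ⟨(1, 0), fun _ => ⟨?_, ?_⟩⟩
      · rintro ⟨h, -⟩
        exact hpz.not_dvd_one h
      · intro r σ h1 h2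
        exact absurd ⟨r, σ, h1, h2⟩ hroot
    obtain ⟨r0, σ0, hσ0, hr0⟩ := hroot
    have main : ∀ r σ : ℤ, ¬ (p : ℤ) ∣ σ → (p : ℤ) ∣ r ^ 2 + B * σ * r + A * C * σ ^ 2 →
        (∀ u1 u2 : ℤ, (p : ℤ) ∣ r * u1 - C * σ * u2 → (p : ℤ) ∣ A * σ * u1 + (r + B * σ) * u2 →
          (p : ℤ) ∣ r0 * u1 + -(C * σ0) * u2 ∧ (p : ℤ) ∣ A * σ0 * u1 + (r0 + B * σ0) * u2) ∨
        (∀ u1 u2 : ℤ, (p : ℤ) ∣ (r + B * σ) * u1 + C * σ * u2 → (p : ℤ) ∣ -A * σ * u1 + r * u2 →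
          (p : ℤ) ∣ r0 * u1 + -(C * σ0) * u2 ∧ (p : ℤ) ∣ A * σ0 * u1 + (r0 + B * σ0) * u2) := by
      intro r σ hσ hr
      simp only [← ZMod.intCast_zmod_eq_zero_iff_dvd] at hσ hr hσ0 hr0 ⊢
      push_cast at hσ hr hσ0 hr0 ⊢
      have : ((r : ZMod p) * σ0 - r0 * σ) * (r * σ0 + r0 * σ + B * σ * σ0) = 0 := by
        linear_combination (σ0 : ZMod p) ^ 2 * hr - (σ : ZMod p) ^ 2 * hr0
      rcases mul_eq_zero.1 this with h | h
      · left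
        intro u1 u2 h1 h2
        constructor
        · apply mul_left_cancel₀ hσ
          linear_combination (σ0 : ZMod p) * h1 - (u1 : ZMod p) * h
        · apply mul_left_cancel₀ hσ
          linear_combination (σ0 : ZMod p) * h2 - (u2 : ZMod p) * h
      · right
        intro u1 u2 h1 h2
        constructor
        · apply mul_left_cancel₀ hσ
          linear_combination (-σ0 : ZMod p) * h1 + (u1 : ZMod p) * h
        · apply mul_left_cancel₀ hσ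
          linear_combination (-σ0 : ZMod p) * h2 + (u2 : ZMod p) * h
    by_cases hc : (p : ℤ) ∣ r0 ∧ (p : ℤ) ∣ -(C * σ0)
    · refine ⟨(A * σ0, r0 + B * σ0), fun _ => ⟨?_, ?_⟩⟩
      · rintro ⟨h1, h2⟩
        simp only at h1 h2
        have hA : (p : ℤ) ∣ A := (hpz.dvd_or_dvd h1).resolve_right hσ0
        have hC : (p : ℤ) ∣ C := (hpz.dvd_or_dvd ((dvd_neg).1 hc.2)).resolve_right hσ0
        have hB : (p : ℤ) ∣ B :=
          (hpz.dvd_or_dvd ((dvd_add_right hc.1).1 h2)).resolve_right hσ0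
        apply hpz.not_dvd_one
        rw [← hbez]
        exact dvd_add (dvd_add (hA.mul_left _) (hB.mul_left _)) (hC.mul_left _)
      · intro r σ h1 h2
        rcases main r σ h1 h2 with h | h
        · exact Or.inl fun u1 u2 a1 a2 => (h u1 u2 a1 a2).2
        · exact Or.inr fun u1 u2 a1 a2 => (h u1 u2 a1 a2).2
    · refine ⟨(r0, -(C * σ0)), fun _ => ⟨hc, ?_⟩⟩
      intro r σ h1 h2
      rcases main r σ h1 h2 with h | h
      · exact Or.inl fun u1 u2 a1 a2 => (h u1 u2 a1 a2).1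
      · exact Or.inr fun u1 u2 a1 a2 => (h u1 u2 a1 a2).1
  choose w hw using key
  exact ⟨fun p => (w p).1, fun p => (w p).2, fun p hp => (hw p hp).1, fun p hp => (hw p hp).2⟩

/-- Primes that can divide the denominator of a rational rotation. -/
def Relevant (A B C : ℤ) (p : ℕ) : Prop :=
  ∃ q r σ : ℤ, (p : ℤ) ∣ q ∧ ¬ (p : ℤ) ∣ σ ∧ q ^ 2 = r ^ 2 + B * σ * r + A * C * σ ^ 2

lemma integral_of_not_bad (A B C a b c : ℤ) (hbez : a * A + b * B + c * C = 1)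
    (P : ℕ → Prop) (hP : ∀ p : ℕ, p.Prime → Relevant A B C p → P p) (α β : ℕ → ℤ)
    (hαβ : ∀ p : ℕ, p.Prime → ∀ r σ : ℤ, ¬ (p : ℤ) ∣ σ →
      (p : ℤ) ∣ r ^ 2 + B * σ * r + A * C * σ ^ 2 →
        (∀ u1 u2 : ℤ, (p : ℤ) ∣ r * u1 - C * σ * u2 → (p : ℤ) ∣ A * σ * u1 + (r + B * σ) * u2 →
          (p : ℤ) ∣ α p * u1 + β p * u2) ∨
        (∀ u1 u2 : ℤ, (p : ℤ) ∣ (r + B * σ) * u1 + C * σ * u2 → (p : ℤ) ∣ -A * σ * u1 + r * u2 →
          (p : ℤ) ∣ α p * u1 + β p * u2))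
    {x y : X} (hd : dt y = dt x) (hx : dt x ≠ 0)
    (h1 : A * (g22 x y - g11 x y) = B * g21 x y) (h2 : A * g12 x y + C * g21 x y = 0)
    (h3 : B * g12 x y + C * (g22 x y - g11 x y) = 0)
    (bx : ¬ Bad P α β x) (hy : ¬ Bad P α β y) :
    ∃ r σ : ℤ, r ^ 2 + B * σ * r + A * C * σ ^ 2 = 1 ∧ y = act A B C r σ x := by
  obtain ⟨⟨u1, v1⟩, ⟨u2, v2⟩⟩ := x
  obtain ⟨⟨a1, b1⟩, ⟨a2, b2⟩⟩ := y
  simp only [dt, g11, g12, g21, g22, Bad] at hd hx h1 h2 h3 bx hy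
  obtain ⟨r1, hr1⟩ : ∃ r1, r1 = a1 * v2 - b1 * u2 := ⟨_, rfl⟩
  obtain ⟨d, hdd⟩ : ∃ d, d = u1 * v2 - u2 * v1 := ⟨_, rfl⟩
  obtain ⟨σ1, hσ1⟩ : ∃ σ1, σ1 = a * (a2 * v2 - b2 * u2) +
    b * (-a2 * v1 + b2 * u1 - (a1 * v2 - b1 * u2)) - c * (-a1 * v1 + b1 * u1) := ⟨_, rfl⟩
  have f21 : a2 * v2 - b2 * u2 = A * σ1 := by
    rw [hσ1]; linear_combination (-(a2 * v2 - b2 * u2)) * hbez - b * h1 + c * h2
  have f22 : -a2 * v1 + b2 * u1 = r1 + B * σ1 := by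
    rw [hσ1, hr1]
    linear_combination (-(-a2 * v1 + b2 * u1 - (a1 * v2 - b1 * u2))) * hbez + a * h1 + c * h3
  have f12 : -a1 * v1 + b1 * u1 = -(C * σ1) := by
    rw [hσ1]; linear_combination (-(-a1 * v1 + b1 * u1)) * hbez + a * h2 + b * h3
  have hd0 : d ≠ 0 := hdd ▸ hx
  have e1 : r1 * u1 - C * σ1 * u2 = d * a1 := by
    rw [hdd]; linear_combination u1 * hr1 - u2 * f12
  have e2 : r1 * v1 - C * σ1 * v2 = d * b1 := by
    rw [hdd]; linear_combination v1 * hr1 - v2 * f12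
  have e3 : A * σ1 * u1 + (r1 + B * σ1) * u2 = d * a2 := by
    rw [hdd]; linear_combination (-u1) * f21 - u2 * f22
  have e4 : A * σ1 * v1 + (r1 + B * σ1) * v2 = d * b2 := by
    rw [hdd]; linear_combination (-v1) * f21 - v2 * f22
  have e5 : r1 ^ 2 + B * σ1 * r1 + A * C * σ1 ^ 2 = d ^ 2 := by
    apply mul_left_cancel₀ hd0
    have : (r1 ^ 2 + B * σ1 * r1 + A * C * σ1 ^ 2) * (u1 * v2 - u2 * v1) =
        d ^ 2 * (a1 * b2 - a2 * b1) := by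
      linear_combination (A * σ1 * v1 + (r1 + B * σ1) * v2) * e1 + (d * a1) * e4 -
        (r1 * v1 - C * σ1 * v2) * e3 - (d * a2) * e2
    rw [hd, ← hdd] at this
    linarith
  have hg : 0 < Int.gcd r1 σ1 := by
    refine Nat.pos_of_ne_zero fun h0 => ?_
    rw [Int.gcd_eq_zero_iff] at h0
    rw [h0.1, h0.2] at e5
    apply hd0
    have : d ^ 2 = 0 := by linarith
    exact pow_eq_zero_iff (two_ne_zero) |>.1 this
  obtain ⟨e, r, σ, he, hcop, hr, hσ⟩ := Int.exists_gcd_one' hg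
  have he0 : (e : ℤ) ≠ 0 := by exact_mod_cast he.ne'
  have hdvd : (e : ℤ) ∣ d := by
    have : (e : ℤ) ^ 2 ∣ d ^ 2 := ⟨r ^ 2 + B * σ * r + A * C * σ ^ 2, by
      rw [← e5, hr, hσ]; ring⟩
    exact (Int.pow_dvd_pow_iff two_ne_zero).1 this
  obtain ⟨q, hq⟩ := hdvd
  rw [hr, hσ, hq] at e1 e2 e3 e4 e5
  have k1 : r * u1 - C * σ * u2 = q * a1 := mul_left_cancel₀ he0 (by linear_combination e1)
  have k2 : r * v1 - C * σ * v2 = q * b1 := mul_left_cancel₀ he0 (by linear_combination e2)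
  have k3 : A * σ * u1 + (r + B * σ) * u2 = q * a2 :=
    mul_left_cancel₀ he0 (by linear_combination e3)
  have k4 : A * σ * v1 + (r + B * σ) * v2 = q * b2 :=
    mul_left_cancel₀ he0 (by linear_combination e4)
  have k5 : r ^ 2 + B * σ * r + A * C * σ ^ 2 = q ^ 2 :=
    mul_left_cancel₀ (pow_ne_zero 2 he0) (by linear_combination e5)
  have hq0 : q ≠ 0 := by rintro rfl; exact hd0 (by simpa using hq)
  have l1 : (r + B * σ) * a1 + C * σ * a2 = q * u1 := mul_left_cancel₀ hq0 (by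
    linear_combination (-(r + B * σ)) * k1 - C * σ * k3 + u1 * k5)
  have l2 : (r + B * σ) * b1 + C * σ * b2 = q * v1 := mul_left_cancel₀ hq0 (by
    linear_combination (-(r + B * σ)) * k2 - C * σ * k4 + v1 * k5)
  have l3 : -A * σ * a1 + r * a2 = q * u2 := mul_left_cancel₀ hq0 (by
    linear_combination (A * σ) * k1 - r * k3 + u2 * k5)
  have l4 : -A * σ * b1 + r * b2 = q * v2 := mul_left_cancel₀ hq0 (by
    linear_combination (A * σ) * k2 - r * k4 + v2 * k5)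
  have hq1 : q.natAbs = 1 := by
    by_contra hne
    obtain ⟨p, hp, hpq⟩ := Nat.exists_prime_and_dvd hne
    have hpq' : (p : ℤ) ∣ q := Int.natCast_dvd.2 hpq
    have hpz : Prime (p : ℤ) := Nat.prime_iff_prime_int.1 hp
    have hq2 : (p : ℤ) ∣ r ^ 2 + B * σ * r + A * C * σ ^ 2 := by
      rw [k5]; exact dvd_pow hpq' two_ne_zero
    have hpσ : ¬ (p : ℤ) ∣ σ := by
      intro h
      have : (p : ℤ) ∣ r ^ 2 := by
        have h' : (p : ℤ) ∣ σ * (B * r + A * C * σ) := h.mul_right _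
        have := dvd_sub hq2 h'
        rwa [show r ^ 2 + B * σ * r + A * C * σ ^ 2 - σ * (B * r + A * C * σ) = r ^ 2 by ring]
          at this
      have hr' := hpz.dvd_of_dvd_pow this
      have := Int.dvd_coe_gcd hr' h
      rw [hcop] at this
      exact hpz.not_dvd_one this
    have hPp := hP p hp ⟨q, r, σ, hpq', hpσ, k5.symm⟩
    rcases hαβ p hp r σ hpσ hq2 with h | h
    · exact bx ⟨p, hp, hPp, h _ _ (k1 ▸ hpq'.mul_right _) (k3 ▸ hpq'.mul_right _),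
        h _ _ (k2 ▸ hpq'.mul_right _) (k4 ▸ hpq'.mul_right _)⟩
    · exact hy ⟨p, hp, hPp, h _ _ (l1 ▸ hpq'.mul_right _) (l3 ▸ hpq'.mul_right _),
        h _ _ (l2 ▸ hpq'.mul_right _) (l4 ▸ hpq'.mul_right _)⟩
  have hqq : q ^ 2 = 1 := by
    rcases Int.natAbs_eq_iff.1 hq1 with h | h <;> rw [h] <;> norm_num
  refine ⟨q * r, q * σ, by linear_combination q ^ 2 * k5 + (q ^ 2 + 1) * hqq, ?_⟩
  simp only [act, Prod.mk.injEq]
  refine ⟨⟨?_, ?_⟩, ?_, ?_⟩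
  · linear_combination (-q) * k1 - a1 * hqq
  · linear_combination (-q) * k2 - b1 * hqq
  · linear_combination (-q) * k3 - a2 * hqq
  · linear_combination (-q) * k4 - b2 * hqq

end Pool.Agent.MP_047cd2_co

end
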