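import Mathlib

section

namespace Pool.Agent.MP_047cd2_co

open Finset

/-- The hexagon of pairs with width at most `m`. -/
noncomputable def H (m : ℕ) : Finset (ℤ × ℤ) :=
  ((Icc (-(m : ℤ)) m) ×ˢ (Icc (-(m : ℤ)) m)).filter
    (fun z => -(m : ℤ) ≤ z.1 - z.2 ∧ z.1 - z.2 ≤ m)

lemma mem_H {m : ℕ} {z : ℤ × ℤ} : z ∈ H m ↔
    -(m : ℤ) ≤ z.1 ∧ z.1 ≤ m ∧ -(m : ℤ) ≤ z.2 ∧ z.2 ≤ m ∧ -(m : ℤ) ≤ z.1 - z.2 ∧ z.1 - z.2 ≤ m := by
  simp only [H, mem_filter, mem_product, mem_Icc]
  tauto

lemma two_sum_succ (k : ℕ) : 2 * ∑ s ∈ range k, (s + 1) = k * (k + 1) := by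
  induction k with
  | zero => simp
  | succ n ih => rw [sum_range_succ, mul_add, ih]; ring

lemma card_corner (a b : ℤ) (k : ℕ) (S : Finset (ℤ × ℤ))
    (hS : ∀ z, z ∈ S ↔ a ≤ z.1 ∧ z.2 ≤ b ∧ (z.1 - a) + (b - z.2) < k) :
    2 * S.card = k * (k + 1) := by
  have h : S.card = ((range k).sigma (fun s => range (s + 1))).card := by
    refine card_nbij' (fun z => ⟨((z.1 - a) + (b - z.2)).toNat, (z.1 - a).toNat⟩)
      (fun w => (a + (w.2 : ℤ), b - ((w.1 : ℤ) - (w.2 : ℤ)))) ?_ ?_ ?_ ?_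
    · intro z hz
      have := (hS z).1 hz
      simp only [coe_sigma, Set.mem_sigma_iff, coe_range, Set.mem_Iio]
      omega
    · intro w hw
      simp only [coe_sigma, Set.mem_sigma_iff, coe_range, Set.mem_Iio] at hw
      refine (hS _).2 ?_
      simp only
      omega
    · intro z hz
      have := (hS z).1 hz
      ext <;> simp only <;> omega
    · intro w hw
      simp only [coe_sigma, Set.mem_sigma_iff, coe_range, Set.mem_Iio] at hw
      obtain ⟨i, j⟩ := w
      simp only at hw ⊢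
      congr 1 <;> omega
  rw [h, card_sigma]
  simp only [card_range]
  exact two_sum_succ k

lemma card_corner' (a b : ℤ) (k : ℕ) (S : Finset (ℤ × ℤ))
    (hS : ∀ z, z ∈ S ↔ z.1 ≤ a ∧ b ≤ z.2 ∧ (a - z.1) + (z.2 - b) < k) :
    2 * S.card = k * (k + 1) := by
  have h := card_corner b a k (S.image Prod.swap) (by
    intro z
    simp only [mem_image]
    constructor
    · rintro ⟨w, hw, rfl⟩
      have := (hS w).1 hw
      simp only [Prod.fst_swap, Prod.snd_swap]
      omega
    · intro hz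
      refine ⟨z.swap, (hS _).2 ?_, by simp⟩
      simp only [Prod.fst_swap, Prod.snd_swap]
      omega)
  rwa [card_image_of_injective _ Prod.swap_injective] at h

lemma card_region (a1 a2 b1 b2 : ℤ) (k l : ℕ) (S : Finset (ℤ × ℤ))
    (hS : ∀ z, z ∈ S ↔ a1 ≤ z.1 ∧ z.1 ≤ a2 ∧ b1 ≤ z.2 ∧ z.2 ≤ b2 ∧
      (k : ℤ) ≤ (z.1 - a1) + (b2 - z.2) ∧ (l : ℤ) ≤ (a2 - z.1) + (z.2 - b1))
    (h1 : (k : ℤ) ≤ a2 - a1 + 1) (h2 : (k : ℤ) ≤ b2 - b1 + 1)
    (h3 : (l : ℤ) ≤ a2 - a1 + 1) (h4 : (l : ℤ) ≤ b2 - b1 + 1)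
    (h5 : (k : ℤ) + l ≤ (a2 - a1) + (b2 - b1) + 1) :
    2 * (S.card : ℤ) = 2 * (a2 - a1 + 1) * (b2 - b1 + 1) - k * (k + 1) - l * (l + 1) := by
  set R := (Icc a1 a2) ×ˢ (Icc b1 b2) with hR
  have c1 := card_corner a1 b2 k (R.filter (fun z => (z.1 - a1) + (b2 - z.2) < k)) (by
    intro z
    simp only [hR, mem_filter, mem_product, mem_Icc]
    omega)
  have c2 := card_corner' a2 b1 l (R.filter (fun z => (a2 - z.1) + (z.2 - b1) < l)) (by
    intro z
    simp only [hR, mem_filter, mem_product, mem_Icc]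
    omega)
  have hU : R = S ∪ (R.filter (fun z => (z.1 - a1) + (b2 - z.2) < k) ∪
      R.filter (fun z => (a2 - z.1) + (z.2 - b1) < l)) := by
    ext z
    simp only [hR, mem_union, mem_filter, mem_product, mem_Icc, hS]
    omega
  have hd1 : Disjoint (R.filter (fun z => (z.1 - a1) + (b2 - z.2) < k))
      (R.filter (fun z => (a2 - z.1) + (z.2 - b1) < l)) := by
    rw [disjoint_left]
    intro z
    simp only [hR, mem_filter, mem_product, mem_Icc]
    omega
  have hd2 : Disjoint S (R.filter (fun z => (z.1 - a1) + (b2 - z.2) < k) ∪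
      R.filter (fun z => (a2 - z.1) + (z.2 - b1) < l)) := by
    rw [disjoint_left]
    intro z
    simp only [hR, mem_union, mem_filter, mem_product, mem_Icc, hS]
    omega
  have hc : R.card = S.card + ((R.filter (fun z => (z.1 - a1) + (b2 - z.2) < k)).card +
      (R.filter (fun z => (a2 - z.1) + (z.2 - b1) < l)).card) := by
    conv_lhs => rw [hU]
    rw [card_union_of_disjoint hd2, card_union_of_disjoint hd1]
  have hR' : (R.card : ℤ) = (a2 - a1 + 1) * (b2 - b1 + 1) := by
    rw [hR, card_product, Int.card_Icc, Int.card_Icc]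
    push_cast
    rw [Int.toNat_of_nonneg (by omega), Int.toNat_of_nonneg (by omega)]
    ring
  have c1' : 2 * ((R.filter (fun z => (z.1 - a1) + (b2 - z.2) < k)).card : ℤ) = k * (k + 1) := by
    exact_mod_cast c1
  have c2' : 2 * ((R.filter (fun z => (a2 - z.1) + (z.2 - b1) < l)).card : ℤ) = l * (l + 1) := by
    exact_mod_cast c2
  have hc' : (R.card : ℤ) = S.card + ((R.filter (fun z => (z.1 - a1) + (b2 - z.2) < k)).card +
      (R.filter (fun z => (a2 - z.1) + (z.2 - b1) < l)).card) := by exact_mod_cast hc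
  linarith

lemma card_H (m : ℕ) : ((H m).card : ℝ) = 3 * (m : ℝ) ^ 2 + 3 * m + 1 := by
  have h := card_region (-m) m (-m) m m m (H m) (by
    intro z; rw [mem_H]; omega) (by omega) (by omega) (by omega) (by omega) (by omega)
  have h2 : ((H m).card : ℤ) = 3 * (m : ℤ) ^ 2 + 3 * m + 1 := by linarith
  exact_mod_cast h2

/-- A set of pairwise congruent points of the hexagon is small. -/
lemma card_congr_le (m q : ℕ) (hq : 0 < q) (S : Finset (ℤ × ℤ)) (hS : S ⊆ H m)
    (hc : ∀ z ∈ S, ∀ w ∈ S, (q : ℤ) ∣ z.1 - w.1 ∧ (q : ℤ) ∣ z.2 - w.2) :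
    (S.card : ℝ) ≤ 3 * ((m : ℝ) / q + 2) ^ 2 := by
  have hq' : (0 : ℤ) < q := by exact_mod_cast hq
  have h1 : S.card ≤ (H (m / q + 1)).card := by
    refine card_le_card_of_injOn (fun z => (z.1 / q, z.2 / q)) ?_ ?_
    · intro z hz
      have hz' := mem_H.1 (hS hz)
      have e1 := Int.emod_add_mul_ediv z.1 q
      have e2 := Int.emod_add_mul_ediv z.2 q
      have e3 := Int.emod_add_mul_ediv (m : ℤ) q
      have l1 := Int.emod_nonneg z.1 hq'.ne'
      have l2 := Int.emod_nonneg z.2 hq'.ne'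
      have l3 := Int.emod_nonneg (m : ℤ) hq'.ne'
      have u1 := Int.emod_lt_of_pos z.1 hq'
      have u2 := Int.emod_lt_of_pos z.2 hq'
      have u3 := Int.emod_lt_of_pos (m : ℤ) hq'
      simp only [mem_coe]
      rw [mem_H]
      push_cast
      generalize z.1 / (q : ℤ) = x at *
      generalize z.2 / (q : ℤ) = y at *
      generalize (m : ℤ) / (q : ℤ) = M at *
      obtain ⟨p1, p2, p3, p4, p5, p6⟩ := hz'
      refine ⟨?_, ?_, ?_, ?_, ?_, ?_⟩ <;> by_contra hh <;> push Not at hh <;> nlinarith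
    · intro z hz w hw hzw
      simp only [Prod.mk.injEq] at hzw
      obtain ⟨d1, d2⟩ := hc z hz w hw
      have e1 := Int.emod_add_mul_ediv z.1 q
      have e2 := Int.emod_add_mul_ediv z.2 q
      have f1 := Int.emod_add_mul_ediv w.1 q
      have f2 := Int.emod_add_mul_ediv w.2 q
      have g1 : z.1 % q = w.1 % q := 
        (Int.emod_eq_emod_iff_emod_sub_eq_zero.2 (Int.emod_eq_zero_of_dvd d1))
      have g2 : z.2 % q = w.2 % q := 
        (Int.emod_eq_emod_iff_emod_sub_eq_zero.2 (Int.emod_eq_zero_of_dvd d2))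
      ext
      · rw [← e1, ← f1, g1, hzw.1]
      · rw [← e2, ← f2, g2, hzw.2]
  have h2 : (S.card : ℝ) ≤ (H (m / q + 1)).card := by exact_mod_cast h1
  rw [card_H] at h2
  have h3 : ((m / q : ℕ) : ℝ) ≤ (m : ℝ) / q := Nat.cast_div_le
  have h4 : (0 : ℝ) ≤ ((m / q : ℕ) : ℝ) := Nat.cast_nonneg _
  push_cast at h2
  nlinarith

end Pool.Agent.MP_047cd2_co

end

section

namespace Pool.Agent.MP_047cd2_co

open Finset

/-- Pairs of patterns: `x.1` holds the first coordinates, `x.2` the second coordinates. -/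
abbrev X : Type := (ℤ × ℤ) × (ℤ × ℤ)

/-- All triangles at the origin fitting in a box of side `m`. -/
noncomputable def Om (m : ℕ) : Finset X := H m ×ˢ H m

/-- The determinant of the two edge vectors. -/
def dt (x : X) : ℤ := x.1.1 * x.2.2 - x.2.1 * x.1.2

lemma mem_Om {m : ℕ} {x : X} : x ∈ Om m ↔ x.1 ∈ H m ∧ x.2 ∈ H m := by
  simp [Om, mem_product]

lemma card_Om (m : ℕ) : ((Om m).card : ℝ) = (3 * (m : ℝ) ^ 2 + 3 * m + 1) ^ 2 := by
  rw [Om, card_product]; push_cast; rw [card_H]; ring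

lemma card_le_sum_fib {α β : Type*} [DecidableEq α] [DecidableEq β] (S : Finset (α × β))
    (A : Finset α) (T : α → Finset β) (h : ∀ x ∈ S, x.1 ∈ A ∧ x.2 ∈ T x.1) :
    S.card ≤ ∑ a ∈ A, (T a).card := by
  have h1 : S ⊆ A.biUnion (fun a => ({a} : Finset α) ×ˢ T a) := by
    intro x hx
    simp only [mem_biUnion, mem_product, mem_singleton]
    exact ⟨x.1, (h x hx).1, rfl, (h x hx).2⟩
  refine (card_le_card h1).trans (card_biUnion_le.trans ?_)
  simp

lemma card_le_fib {α β : Type*} [DecidableEq α] [DecidableEq β] (S : Finset (α × β))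
    (A : Finset α) (T : α → Finset β) (h : ∀ x ∈ S, x.1 ∈ A ∧ x.2 ∈ T x.1) (K : ℝ)
    (hK : ∀ a ∈ A, ((T a).card : ℝ) ≤ K) : (S.card : ℝ) ≤ A.card * K := by
  have h1 : (S.card : ℝ) ≤ ∑ a ∈ A, ((T a).card : ℝ) := by
    exact_mod_cast card_le_sum_fib S A T h
  refine h1.trans ?_
  have := sum_le_card_nsmul A (fun a => ((T a).card : ℝ)) K hK
  simpa using this

lemma card_le_fib' {α β : Type*} [DecidableEq α] [DecidableEq β] (S : Finset (α × β))
    (A : Finset β) (T : β → Finset α) (h : ∀ x ∈ S, x.2 ∈ A ∧ x.1 ∈ T x.2) (K : ℝ)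
    (hK : ∀ a ∈ A, ((T a).card : ℝ) ≤ K) : (S.card : ℝ) ≤ A.card * K := by
  have := card_le_fib (S.image Prod.swap) A T (by
    intro x hx
    obtain ⟨y, hy, rfl⟩ := mem_image.1 hx
    simpa using h y hy) K hK
  rwa [card_image_of_injective _ Prod.swap_injective] at this

lemma card_deg (m : ℕ) :
    (((Om m).filter (fun x => dt x = 0)).card : ℝ) ≤ (H m).card * (2 * m + 2) := by
  have hs : (Om m).filter (fun x => dt x = 0) ⊆
      ((Om m).filter (fun x => dt x = 0 ∧ x.1 ≠ 0)) ∪ ((Om m).filter (fun x => x.1 = 0)) := by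
    intro x hx
    simp only [mem_filter, mem_union] at hx ⊢
    tauto
  have h1 : (((Om m).filter (fun x => dt x = 0 ∧ x.1 ≠ 0)).card : ℝ) ≤ (H m).card * (2 * m + 1) := by
    refine card_le_fib _ (H m) (fun a => (H m).filter (fun b => a ≠ 0 ∧ a.1 * b.2 - b.1 * a.2 = 0))
      ?_ _ ?_
    · intro x hx
      simp only [mem_filter, mem_Om] at hx ⊢
      exact ⟨hx.1.1, hx.1.2, hx.2.2, hx.2.1⟩
    · intro a _
      have hI : ((Icc (-(m : ℤ)) m).card : ℝ) = 2 * m + 1 := by
        rw [Int.card_Icc]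
        have : ((m : ℤ) + 1 - -(m : ℤ)).toNat = 2 * m + 1 := by omega
        rw [this]; push_cast; ring
      rw [← hI]
      by_cases ha : a.1 = 0
      · have : ((H m).filter (fun b => a ≠ 0 ∧ a.1 * b.2 - b.1 * a.2 = 0)).card ≤
            (Icc (-(m : ℤ)) m).card := by
          refine card_le_card_of_injOn (fun b => b.2) ?_ ?_
          · intro b hb
            simp only [coe_filter, Set.mem_ofPred_eq, mem_H] at hb
            simp only [coe_Icc, Set.mem_Icc]
            omega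
          · intro b hb c hc hbc
            simp only [coe_filter, Set.mem_ofPred_eq] at hb hc hbc
            have h2 : a.2 ≠ 0 := fun h => hb.2.1 (Prod.ext ha h)
            have e1 : b.1 = 0 := by
              have := hb.2.2; rw [ha] at this
              have : b.1 * a.2 = 0 := by linarith
              exact (mul_eq_zero.1 this).resolve_right h2
            have e2 : c.1 = 0 := by
              have := hc.2.2; rw [ha] at this
              have : c.1 * a.2 = 0 := by linarith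
              exact (mul_eq_zero.1 this).resolve_right h2
            exact Prod.ext (e1.trans e2.symm) hbc
        exact_mod_cast this
      · have : ((H m).filter (fun b => a ≠ 0 ∧ a.1 * b.2 - b.1 * a.2 = 0)).card ≤
            (Icc (-(m : ℤ)) m).card := by
          refine card_le_card_of_injOn (fun b => b.1) ?_ ?_
          · intro b hb
            simp only [coe_filter, Set.mem_ofPred_eq, mem_H] at hb
            simp only [coe_Icc, Set.mem_Icc]
            omega
          · intro b hb c hc hbc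
            simp only [coe_filter, Set.mem_ofPred_eq] at hb hc hbc
            refine Prod.ext hbc ?_
            have e1 := hb.2.2
            have e2 := hc.2.2
            rw [hbc] at e1
            have : a.1 * (b.2 - c.2) = 0 := by linarith
            have := (mul_eq_zero.1 this).resolve_left ha
            linarith
        exact_mod_cast this
  have h2 : (((Om m).filter (fun x => x.1 = 0)).card : ℝ) ≤ (H m).card * 1 := by
    refine card_le_fib' _ (H m) (fun _ => {0}) ?_ _ ?_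
    · intro x hx
      simp only [mem_filter, mem_Om] at hx
      simp [hx.1.2, hx.2]
    · intro a _; simp
  have h3 : (((Om m).filter (fun x => dt x = 0)).card : ℝ) ≤
      (((Om m).filter (fun x => dt x = 0 ∧ x.1 ≠ 0)).card : ℝ) +
        (((Om m).filter (fun x => x.1 = 0)).card : ℝ) := by
    exact_mod_cast (card_le_card hs).trans (card_union_le _ _)
  linarith

lemma card_line (m p : ℕ) (hp : p.Prime) (α β : ℤ) (h : ¬ ((p : ℤ) ∣ α ∧ (p : ℤ) ∣ β)) :
    (((Om m).filter (fun x => (p : ℤ) ∣ α * x.1.1 + β * x.2.1 ∧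
      (p : ℤ) ∣ α * x.1.2 + β * x.2.2)).card : ℝ) ≤ (H m).card * (3 * ((m : ℝ) / p + 2) ^ 2) := by
  have hpz : Prime (p : ℤ) := Nat.prime_iff_prime_int.1 hp
  by_cases hb : (p : ℤ) ∣ β
  · have ha : ¬ (p : ℤ) ∣ α := fun ha => h ⟨ha, hb⟩
    refine card_le_fib' _ (H m) (fun b => (H m).filter (fun a => (p : ℤ) ∣ α * a.1 + β * b.1 ∧
      (p : ℤ) ∣ α * a.2 + β * b.2)) ?_ _ ?_
    · intro x hx
      simp only [mem_filter, mem_Om] at hx ⊢
      tauto
    · intro b _
      refine card_congr_le m p hp.pos _ (filter_subset _ _) ?_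
      intro z hz w hw
      simp only [mem_filter] at hz hw
      constructor
      · have := dvd_sub hz.2.1 hw.2.1
        rw [show α * z.1 + β * b.1 - (α * w.1 + β * b.1) = α * (z.1 - w.1) by ring] at this
        exact (hpz.dvd_or_dvd this).resolve_left ha
      · have := dvd_sub hz.2.2 hw.2.2
        rw [show α * z.2 + β * b.2 - (α * w.2 + β * b.2) = α * (z.2 - w.2) by ring] at this
        exact (hpz.dvd_or_dvd this).resolve_left ha
  · refine card_le_fib _ (H m) (fun a => (H m).filter (fun b => (p : ℤ) ∣ α * a.1 + β * b.1 ∧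
      (p : ℤ) ∣ α * a.2 + β * b.2)) ?_ _ ?_
    · intro x hx
      simp only [mem_filter, mem_Om] at hx ⊢
      tauto
    · intro a _
      refine card_congr_le m p hp.pos _ (filter_subset _ _) ?_
      intro z hz w hw
      simp only [mem_filter] at hz hw
      constructor
      · have := dvd_sub hz.2.1 hw.2.1
        rw [show α * a.1 + β * z.1 - (α * a.1 + β * w.1) = β * (z.1 - w.1) by ring] at this
        exact (hpz.dvd_or_dvd this).resolve_left hb
      · have := dvd_sub hz.2.2 hw.2.2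
        rw [show α * a.2 + β * z.2 - (α * a.2 + β * w.2) = β * (z.2 - w.2) by ring] at this
        exact (hpz.dvd_or_dvd this).resolve_left hb

lemma card_affine (m : ℕ) (w : ℤ × ℤ) (c : ℤ) (hc : 2 ≤ c.natAbs) (T : Finset (ℤ × ℤ))
    (hT : ∀ b ∈ T, (w.1 + c * b.1, w.2 + c * b.2) ∈ H m) :
    (T.card : ℝ) ≤ 3 * ((m : ℝ) / 2 + 2) ^ 2 := by
  have hc0 : c ≠ 0 := by rintro rfl; simp at hc
  have h1 := card_congr_le m c.natAbs (by omega)
    (T.image (fun b => (w.1 + c * b.1, w.2 + c * b.2))) (by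
      intro z hz
      obtain ⟨b, hb, rfl⟩ := mem_image.1 hz
      exact hT b hb) (by
      intro z hz y hy
      obtain ⟨b, hb, rfl⟩ := mem_image.1 hz
      obtain ⟨b', hb', rfl⟩ := mem_image.1 hy
      simp only [Int.natAbs_dvd]
      exact ⟨⟨b.1 - b'.1, by ring⟩, ⟨b.2 - b'.2, by ring⟩⟩)
  rw [card_image_of_injective] at h1
  · refine h1.trans ?_
    have h2 : (2 : ℝ) ≤ (c.natAbs : ℝ) := by exact_mod_cast hc
    have h3 : (m : ℝ) / (c.natAbs : ℝ) ≤ (m : ℝ) / 2 :=
      div_le_div_of_nonneg_left (Nat.cast_nonneg _) (by norm_num) h2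
    have h4 : 0 ≤ (m : ℝ) / (c.natAbs : ℝ) := by positivity
    nlinarith
  · intro b b' hb
    simp only [Prod.mk.injEq, add_right_inj] at hb
    exact Prod.ext (mul_left_cancel₀ hc0 hb.1) (mul_left_cancel₀ hc0 hb.2)

lemma card_rot1 (m : ℕ) (r c : ℤ) (hc : 2 ≤ c.natAbs) :
    (((Om m).filter (fun x => (r * x.1.1 + c * x.2.1, r * x.1.2 + c * x.2.2) ∈ H m)).card : ℝ) ≤
      (H m).card * (3 * ((m : ℝ) / 2 + 2) ^ 2) := by
  refine card_le_fib _ (H m) (fun a => (H m).filter
    (fun b => (r * a.1 + c * b.1, r * a.2 + c * b.2) ∈ H m)) ?_ _ ?_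
  · intro x hx
    simp only [mem_filter, mem_Om] at hx ⊢
    tauto
  · intro a _
    refine card_affine m (r * a.1, r * a.2) c hc _ ?_
    intro b hb
    exact (mem_filter.1 hb).2

lemma card_rot2 (m : ℕ) (r c : ℤ) (hc : 2 ≤ c.natAbs) :
    (((Om m).filter (fun x => (c * x.1.1 + r * x.2.1, c * x.1.2 + r * x.2.2) ∈ H m)).card : ℝ) ≤
      (H m).card * (3 * ((m : ℝ) / 2 + 2) ^ 2) := by
  refine card_le_fib' _ (H m) (fun b => (H m).filter
    (fun a => (c * a.1 + r * b.1, c * a.2 + r * b.2) ∈ H m)) ?_ _ ?_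
  · intro x hx
    simp only [mem_filter, mem_Om] at hx ⊢
    tauto
  · intro b _
    refine card_affine m (r * b.1, r * b.2) c hc _ ?_
    intro a ha
    have := (mem_filter.1 ha).2
    simp only
    rwa [add_comm (r * b.1), add_comm (r * b.2)]

end Pool.Agent.MP_047cd2_co

end

section

namespace Pool.Agent.MP_047cd2_co

open Finset

lemma sum_cubic (a b c d : ℝ) (k : ℕ) :
    ∑ t ∈ range k, (a + b * (t : ℝ) + c * (t : ℝ) ^ 2 + d * (t : ℝ) ^ 3) =
      a * k + b * (k * (k - 1) / 2) + c * ((k - 1) * k * (2 * k - 1) / 6) +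
        d * (k ^ 2 * (k - 1) ^ 2 / 4) := by
  induction k with
  | zero => simp
  | succ n ih => rw [sum_range_succ, ih]; push_cast; ring

lemma sum_sector (m : ℕ) (F : ℤ × ℤ → ℝ) :
    ∑ z ∈ (H m).filter (fun z => 0 ≤ z.2 ∧ z.2 ≤ z.1), F z =
      ∑ s ∈ range (m + 1), ∑ t ∈ range (s + 1), F ((s : ℤ), (t : ℤ)) := by
  rw [sum_sigma']
  refine sum_nbij' (fun z => ⟨z.1.toNat, z.2.toNat⟩) (fun w => ((w.1 : ℤ), (w.2 : ℤ)))
    ?_ ?_ ?_ ?_ ?_
  · intro z hz
    simp only [mem_filter, mem_H] at hz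
    simp only [mem_sigma, mem_range]
    omega
  · intro w hw
    simp only [mem_sigma, mem_range] at hw
    simp only [mem_filter, mem_H]
    omega
  · intro z hz
    simp only [mem_filter, mem_H] at hz
    ext <;> simp only <;> omega
  · intro w hw
    obtain ⟨i, j⟩ := w
    simp
  · intro z hz
    simp only [mem_filter, mem_H] at hz
    congr 1
    ext <;> simp only <;> omega

/-- Triangles whose third width is also at most `m`. -/
noncomputable def V (m : ℕ) : Finset X := (Om m).filter (fun x => x.1 + x.2 ∈ H m)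

lemma card_Vsec (m : ℕ) :
    6 * (((V m).filter (fun x => 0 ≤ x.1.2 ∧ x.1.2 ≤ x.1.1)).card : ℝ) ≤
      21 / 4 * (m : ℝ) ^ 4 + 45 / 2 * (m : ℝ) ^ 3 + 135 / 4 * (m : ℝ) ^ 2 + 45 / 2 * m + 6 := by
  have h1 := card_le_sum_fib ((V m).filter (fun x => 0 ≤ x.1.2 ∧ x.1.2 ≤ x.1.1))
    ((H m).filter (fun z => 0 ≤ z.2 ∧ z.2 ≤ z.1)) (fun a => (H m).filter (fun b => a + b ∈ H m)) (by
      intro x hx
      simp only [V, mem_filter, mem_Om] at hx ⊢
      tauto)
  have h2 : (((V m).filter (fun x => 0 ≤ x.1.2 ∧ x.1.2 ≤ x.1.1)).card : ℝ) ≤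
      ∑ z ∈ (H m).filter (fun z => 0 ≤ z.2 ∧ z.2 ≤ z.1),
        (((H m).filter (fun b => z + b ∈ H m)).card : ℝ) := by exact_mod_cast h1
  rw [sum_sector] at h2
  have h3 : ∑ s ∈ range (m + 1), ∑ t ∈ range (s + 1),
      (((H m).filter (fun b => ((s : ℤ), (t : ℤ)) + b ∈ H m)).card : ℝ) =
      ∑ s ∈ range (m + 1), ((1 + 3 * m + 3 * (m : ℝ) ^ 2) + (-1 / 6 + m + 3 * (m : ℝ) ^ 2) * (s : ℝ)
        + (-1 - 2 * m) * (s : ℝ) ^ 2 + (1 / 6) * (s : ℝ) ^ 3) := by
    refine sum_congr rfl ?_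
    intro s hs
    have : ∑ t ∈ range (s + 1),
        (((H m).filter (fun b => ((s : ℤ), (t : ℤ)) + b ∈ H m)).card : ℝ) =
        ∑ t ∈ range (s + 1), (((2 * m + 1 - s) * (2 * m + 1) - m * (m + 1) : ℝ) +
          (-(2 * m + 1 - s) + (2 * m + 1)) * (t : ℝ) + (-1) * (t : ℝ) ^ 2 + 0 * (t : ℝ) ^ 3) := by
      refine sum_congr rfl ?_
      intro t ht
      rw [mem_range] at hs ht
      have hk : ((m - t : ℕ) : ℤ) = m - t := by omega
      have h := card_region (-m) (m - s) (-m) (m - t) (m - t) (m - t)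
        ((H m).filter (fun b => ((s : ℤ), (t : ℤ)) + b ∈ H m)) (by
          intro z
          simp only [mem_filter, mem_H, Prod.fst_add, Prod.snd_add]
          omega) (by omega) (by omega) (by omega) (by omega) (by omega)
      rw [hk] at h
      have h' : (2 : ℝ) * (((H m).filter (fun b => ((s : ℤ), (t : ℤ)) + b ∈ H m)).card : ℝ) =
          2 * (m - s - -m + 1) * (m - t - -m + 1) - (m - t) * (m - t + 1) -
            (m - t) * (m - t + 1) := by exact_mod_cast h
      linarith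
    rw [this, sum_cubic]
    push_cast
    ring
  rw [h3, sum_cubic] at h2
  push_cast at h2
  nlinarith

lemma sec_le (m : ℕ) (g : ℤ × ℤ → ℤ × ℤ) (hinj : Function.Injective g)
    (hH : ∀ z ∈ H m, g z ∈ H m) (hadd : ∀ z w, g (z + w) = g z + g w) :
    ((V m).filter (fun x => 0 ≤ (g x.1).2 ∧ (g x.1).2 ≤ (g x.1).1)).card ≤
      ((V m).filter (fun x => 0 ≤ x.1.2 ∧ x.1.2 ≤ x.1.1)).card := by
  refine card_le_card_of_injOn (fun x => (g x.1, g x.2)) ?_ ?_
  · intro x hx
    simp only [V, coe_filter, Set.mem_ofPred_eq, mem_filter, mem_Om] at hx ⊢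
    refine ⟨⟨⟨hH _ hx.1.1.1, hH _ hx.1.1.2⟩, ?_⟩, hx.2⟩
    rw [← hadd]; exact hH _ hx.1.2
  · intro x _ y _ hxy
    simp only [Prod.mk.injEq] at hxy
    exact Prod.ext (hinj hxy.1) (hinj hxy.2)

lemma card_V (m : ℕ) : ((V m).card : ℝ) ≤
      21 / 4 * (m : ℝ) ^ 4 + 45 / 2 * (m : ℝ) ^ 3 + 135 / 4 * (m : ℝ) ^ 2 + 45 / 2 * m + 6 := by
  refine le_trans ?_ (card_Vsec m)
  have aux : ∀ a b c d : ℤ, a * d - b * c = 1 ∨ a * d - b * c = -1 →
      (∀ z ∈ H m, (a * z.1 + b * z.2, c * z.1 + d * z.2) ∈ H m) →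
      ((V m).filter (fun x => 0 ≤ c * x.1.1 + d * x.1.2 ∧
        c * x.1.1 + d * x.1.2 ≤ a * x.1.1 + b * x.1.2)).card ≤
      ((V m).filter (fun x => 0 ≤ x.1.2 ∧ x.1.2 ≤ x.1.1)).card := by
    intro a b c d hd hH
    refine sec_le m (fun z => (a * z.1 + b * z.2, c * z.1 + d * z.2)) ?_ hH ?_
    · intro z w hzw
      simp only [Prod.mk.injEq] at hzw
      obtain ⟨e1, e2⟩ := hzw
      have hne : a * d - b * c ≠ 0 := by rcases hd with h | h <;> rw [h] <;> norm_num
      have f1 : (a * d - b * c) * (z.1 - w.1) = 0 := by linear_combination d * e1 - b * e2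
      have f2 : (a * d - b * c) * (z.2 - w.2) = 0 := by linear_combination a * e2 - c * e1
      have g1 := (mul_eq_zero.1 f1).resolve_left hne
      have g2 := (mul_eq_zero.1 f2).resolve_left hne
      exact Prod.ext (by linarith) (by linarith)
    · intro z w
      ext <;> simp only [Prod.fst_add, Prod.snd_add] <;> ring
  have a1 := aux 1 0 0 1 (by norm_num) (by intro z hz; rw [mem_H] at hz ⊢; simp only; omega)
  have a2 := aux 0 1 1 0 (by norm_num) (by intro z hz; rw [mem_H] at hz ⊢; simp only; omega)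
  have a3 := aux (-1) 0 0 (-1) (by norm_num) (by intro z hz; rw [mem_H] at hz ⊢; simp only; omega)
  have a4 := aux 0 (-1) (-1) 0 (by norm_num) (by intro z hz; rw [mem_H] at hz ⊢; simp only; omega)
  have a5 := aux 1 (-1) 1 0 (by norm_num) (by intro z hz; rw [mem_H] at hz ⊢; simp only; omega)
  have a6 := aux (-1) 1 0 1 (by norm_num) (by intro z hz; rw [mem_H] at hz ⊢; simp only; omega)
  have hs : V m ⊆ ((V m).filter (fun x => 0 ≤ 0 * x.1.1 + 1 * x.1.2 ∧
        0 * x.1.1 + 1 * x.1.2 ≤ 1 * x.1.1 + 0 * x.1.2)) ∪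
      (((V m).filter (fun x => 0 ≤ 1 * x.1.1 + 0 * x.1.2 ∧
        1 * x.1.1 + 0 * x.1.2 ≤ 0 * x.1.1 + 1 * x.1.2)) ∪
      (((V m).filter (fun x => 0 ≤ 0 * x.1.1 + (-1) * x.1.2 ∧
        0 * x.1.1 + (-1) * x.1.2 ≤ (-1) * x.1.1 + 0 * x.1.2)) ∪
      (((V m).filter (fun x => 0 ≤ (-1) * x.1.1 + 0 * x.1.2 ∧
        (-1) * x.1.1 + 0 * x.1.2 ≤ 0 * x.1.1 + (-1) * x.1.2)) ∪
      (((V m).filter (fun x => 0 ≤ 1 * x.1.1 + 0 * x.1.2 ∧
        1 * x.1.1 + 0 * x.1.2 ≤ 1 * x.1.1 + (-1) * x.1.2)) ∪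
      ((V m).filter (fun x => 0 ≤ 0 * x.1.1 + 1 * x.1.2 ∧
        0 * x.1.1 + 1 * x.1.2 ≤ (-1) * x.1.1 + 1 * x.1.2)))))) := by
    intro x hx
    simp only [mem_union, mem_filter, hx, true_and]
    omega
  have hc := card_le_card hs
  have : (V m).card ≤ 6 * ((V m).filter (fun x => 0 ≤ x.1.2 ∧ x.1.2 ≤ x.1.1)).card := by
    refine hc.trans ?_
    refine (card_union_le _ _).trans ?_
    refine (Nat.add_le_add_left (card_union_le _ _) _).trans ?_
    refine (Nat.add_le_add_left (Nat.add_le_add_left (card_union_le _ _) _) _).trans ?_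
    refine (Nat.add_le_add_left (Nat.add_le_add_left
      (Nat.add_le_add_left (card_union_le _ _) _) _) _).trans ?_
    refine (Nat.add_le_add_left (Nat.add_le_add_left
      (Nat.add_le_add_left (Nat.add_le_add_left (card_union_le _ _) _) _) _) _).trans ?_
    omega
  exact_mod_cast this

lemma card_VB (m : ℕ) (B : ℤ) (hB : B = 1 ∨ B = -1) :
    (((Om m).filter (fun x => (x.1.1 + B * x.2.1, x.1.2 + B * x.2.2) ∈ H m)).card : ℝ) ≤
      21 / 4 * (m : ℝ) ^ 4 + 45 / 2 * (m : ℝ) ^ 3 + 135 / 4 * (m : ℝ) ^ 2 + 45 / 2 * m + 6 := by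
  refine le_trans ?_ (card_V m)
  have : ((Om m).filter (fun x => (x.1.1 + B * x.2.1, x.1.2 + B * x.2.2) ∈ H m)).card ≤
      (V m).card := by
    refine card_le_card_of_injOn (fun x => (x.1, (B * x.2.1, B * x.2.2))) ?_ ?_
    · intro x hx
      simp only [V, coe_filter, Set.mem_ofPred_eq, mem_Om, mem_H, Prod.fst_add, Prod.snd_add]
        at hx ⊢
      rcases hB with rfl | rfl <;> omega
    · intro x _ y _ hxy
      simp only [Prod.mk.injEq] at hxy
      obtain ⟨e1, e2, e3⟩ := hxy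
      refine Prod.ext e1 (Prod.ext ?_ ?_) <;> rcases hB with rfl | rfl <;> omega
  exact_mod_cast this

end Pool.Agent.MP_047cd2_co

end

section

namespace Pool.Agent.MP_047cd2_co

open Finset

/-- The quadratic form `A s ^ 2 + B s t + C t ^ 2`. -/
def qf (A B C : ℝ) (s t : ℤ) : ℝ := A * (s : ℝ) ^ 2 + B * s * t + C * (t : ℝ) ^ 2

/-- The ordered triple of squared side lengths. -/
def gram (A B C : ℝ) (x : X) : ℝ × ℝ × ℝ :=
  (qf A B C x.1.1 x.2.1, qf A B C x.1.2 x.2.2, qf A B C (x.1.1 - x.1.2) (x.2.1 - x.2.2))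

/-- The multiset of a triple. -/
def toM (g : ℝ × ℝ × ℝ) : Multiset ℝ := {g.1, g.2.1, g.2.2}

/-- The multiset of squared side lengths. -/
def ms (A B C : ℝ) (x : X) : Multiset ℝ := toM (gram A B C x)

/-- The non-degenerate triangles. -/
noncomputable def Omn (m : ℕ) : Finset X := (Om m).filter (fun x => dt x ≠ 0)

/-- The number of side length multisets. -/
noncomputable def Mc (A B C : ℝ) (m : ℕ) : ℕ := ((Omn m).image (ms A B C)).card

lemma triple_eq {a b c x y z : ℝ} (h : ({a, b, c} : Multiset ℝ) = {x, y, z}) :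
    (a = x ∧ b = y ∧ c = z) ∨ (a = x ∧ b = z ∧ c = y) ∨ (a = y ∧ b = x ∧ c = z) ∨
    (a = y ∧ b = z ∧ c = x) ∨ (a = z ∧ b = x ∧ c = y) ∨ (a = z ∧ b = y ∧ c = x) := by
  have pair : ∀ {a b x y : ℝ}, ({a, b} : Multiset ℝ) = {x, y} →
      (a = x ∧ b = y) ∨ (a = y ∧ b = x) := by
    intro a b x y h
    have ha : a ∈ ({x, y} : Multiset ℝ) := h ▸ (by simp)
    simp only [Multiset.insert_eq_cons, Multiset.mem_cons, Multiset.mem_singleton] at ha
    rcases ha with rfl | rfl
    · left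
      simp only [Multiset.insert_eq_cons, Multiset.cons_inj_right, Multiset.singleton_inj] at h
      exact ⟨rfl, h⟩
    · right
      rw [Multiset.pair_comm x a] at h
      simp only [Multiset.insert_eq_cons, Multiset.cons_inj_right, Multiset.singleton_inj] at h
      exact ⟨rfl, h⟩
  have ha : a ∈ ({x, y, z} : Multiset ℝ) := h ▸ (by simp)
  simp only [Multiset.insert_eq_cons, Multiset.mem_cons, Multiset.mem_singleton] at ha
  rcases ha with rfl | rfl | rfl
  · have := pair ((Multiset.cons_inj_right a).1 h)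
    tauto
  · have e : ({x, a, z} : Multiset ℝ) = {a, x, z} := Multiset.cons_swap _ _ _
    rw [e] at h
    have := pair ((Multiset.cons_inj_right a).1 h)
    tauto
  · have e : ({x, y, a} : Multiset ℝ) = {a, x, y} := by
      rw [Multiset.pair_comm y a]; exact Multiset.cons_swap _ _ _
    rw [e] at h
    have := pair ((Multiset.cons_inj_right a).1 h)
    tauto

lemma perm_213 (a b c : ℝ) : ({b, a, c} : Multiset ℝ) = {a, b, c} := Multiset.cons_swap _ _ _

lemma perm_132 (a b c : ℝ) : ({a, c, b} : Multiset ℝ) = {a, b, c} := by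
  rw [Multiset.pair_comm c b]

lemma perm_312 (a b c : ℝ) : ({c, a, b} : Multiset ℝ) = {a, b, c} := by
  rw [perm_213, perm_132]

lemma perm_231 (a b c : ℝ) : ({b, c, a} : Multiset ℝ) = {a, b, c} := by
  rw [perm_132, perm_213]

lemma perm_321 (a b c : ℝ) : ({c, b, a} : Multiset ℝ) = {a, b, c} := by
  rw [perm_213, perm_231]

lemma sum_inv_le {α β : Type*} [DecidableEq β] (S : Finset α) (φ : α → β) (k : α → ℝ)
    (h : ∀ x ∈ S, ((S.filter (fun y => φ y = φ x)).card : ℝ) ≤ k x) :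
    ∑ x ∈ S, 1 / k x ≤ (S.image φ).card := by
  rw [← sum_fiberwise_of_maps_to (g := φ) (t := S.image φ) (fun x hx => mem_image_of_mem φ hx)]
  have : ∀ b ∈ S.image φ, ∑ x ∈ S.filter (fun y => φ y = b), 1 / k x ≤ 1 := by
    intro b hb
    have hpos : (0 : ℝ) < (S.filter (fun y => φ y = b)).card := by
      obtain ⟨x, hx, rfl⟩ := mem_image.1 hb
      have : 0 < (S.filter (fun y => φ y = φ x)).card := card_pos.2 ⟨x, by simp [hx]⟩
      exact_mod_cast this
    have h1 : ∀ x ∈ S.filter (fun y => φ y = b),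
        1 / k x ≤ 1 / ((S.filter (fun y => φ y = b)).card : ℝ) := by
      intro x hx
      rw [mem_filter] at hx
      have := h x hx.1
      rw [hx.2] at this
      exact one_div_le_one_div_of_le hpos this
    have h2 := sum_le_card_nsmul _ _ _ h1
    rw [nsmul_eq_mul, mul_one_div_cancel hpos.ne'] at h2
    exact h2
  have h3 := sum_le_card_nsmul _ _ _ this
  simpa using h3

/-- Same ordered side lengths and same orientation. -/
def Rel (A B C : ℝ) (x y : X) : Prop := gram A B C y = gram A B C x ∧ (0 < dt y ↔ 0 < dt x)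

open Classical in
lemma sum_inv_le_Mc (A B C : ℝ) (m : ℕ) (S : Finset X) (hS : S ⊆ Omn m) (k : X → ℝ)
    (h : ∀ x ∈ S, ((S.filter (fun y => Rel A B C x y)).card : ℝ) ≤ k x) :
    ∑ x ∈ S, 1 / k x ≤ 12 * (Mc A B C m : ℝ) := by
  have h1 := sum_inv_le S (fun x => (gram A B C x, decide (0 < dt x))) k (by
    intro x hx
    refine le_trans (le_of_eq ?_) (h x hx)
    congr 2
    ext y
    simp [Rel])
  refine h1.trans ?_
  have h2 : (S.image (fun x => (gram A B C x, decide (0 < dt x)))).card ≤ 12 * Mc A B C m := by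
    have h3 := card_le_mul_card_image (f := fun w : (ℝ × ℝ × ℝ) × Bool => toM w.1)
      (S.image (fun x => (gram A B C x, decide (0 < dt x)))) 12 (by
        intro b hb
        obtain ⟨⟨⟨a1, a2, a3⟩, e⟩, _, rfl⟩ := mem_image.1 hb
        have : (S.image (fun x => (gram A B C x, decide (0 < dt x)))).filter
            (fun w => toM w.1 = toM (a1, a2, a3)) ⊆
            ({(a1, a2, a3), (a1, a3, a2), (a2, a1, a3), (a2, a3, a1), (a3, a1, a2), (a3, a2, a1)} :
              Finset (ℝ × ℝ × ℝ)) ×ˢ (univ : Finset Bool) := by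
          rintro ⟨⟨b1, b2, b3⟩, e'⟩ hw
          have := triple_eq (mem_filter.1 hw).2
          simp only [mem_product, mem_insert, mem_singleton, Prod.mk.injEq, mem_univ, and_true]
          exact this
        refine (card_le_card this).trans ?_
        rw [card_product]
        have := card_le_six (a := (a1, a2, a3)) (b := (a1, a3, a2)) (c := (a2, a1, a3))
          (d := (a2, a3, a1)) (e := (a3, a1, a2)) (f := (a3, a2, a1))
        simp only [card_univ, Fintype.card_bool]
        omega)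
    refine h3.trans (Nat.mul_le_mul_left _ ?_)
    rw [image_image]
    exact card_le_card (image_subset_image hS)
  exact_mod_cast h2

lemma Mc_scale (μ : ℝ) (hμ : μ ≠ 0) (m : ℕ) : Mc μ 0 μ m = Mc 1 0 1 m := by
  have : ms μ 0 μ = (Multiset.map (fun r => μ * r)) ∘ ms 1 0 1 := by
    funext x
    simp only [ms, toM, gram, qf, Function.comp, Multiset.insert_eq_cons, Multiset.map_cons,
      Multiset.map_singleton]
    congr 1
    · ring
    · congr 1
      · ring
      · congr 1; ring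
  rw [Mc, Mc, this, ← image_image, card_image_of_injective]
  exact Multiset.map_injective (mul_right_injective₀ hμ)

end Pool.Agent.MP_047cd2_co

end
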